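import Pool.Agent.Rng.Prob
import Pool.Agent.Rm.Rm
import Pool.Agent.SRC.Bern
import Pool.Agent.FK1.Br
import Pool.Agent.Glu.Cube
import Pool.Agent.Slb.Defs

/-!
# One arm with polynomial probability (helper60)

From the ring lemma, a union bound, the first exit and ratio mixing.
-/

set_option autoImplicit false

namespace Pool.Agent.Rng

open Finset
open Pool.Agent.SRC
open Pool.Agent.FK1
open Pool.Agent.Glu (cube mem_cube card_cube)

variable {d : ℕ}

/-! ### deterministic facts on cubes -/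

/-- arm from the centre of the cube to its boundary, inside the cube -/
def ArmE (z : Vx d) (R : ℤ) (η : Set (Ed d)) : Prop :=
  ∃ v, (∃ i, |v i - z i| = R) ∧ v ∈ cube z R ∧ conn (η ∩ ↑(edg (cube z R))) z v

theorem step_abs (v : Vx d) (i j : Fin d) : |(v + uv i) j - v j| ≤ 1 := by
  rw [Pi.add_apply, add_sub_cancel_left]
  unfold uv
  by_cases h : j = i
  · rw [h, Pi.single_eq_same]
    simp
  · rw [Pi.single_eq_of_ne h]
    simp

theorem adj_abs {ω : Set (Ed d)} {b c : Vx d} (h : adj ω b c) (j : Fin d) : |c j - b j| ≤ 1 := by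
  obtain ⟨i, h | h⟩ := h
  · rw [h.2]
    exact step_abs b i j
  · rw [h.2, abs_sub_comm]
    exact step_abs c i j

/-- an edge of `ω` between points of `S` is an edge of `ω ∩ edg S` -/
theorem adj_edg {ω : Set (Ed d)} {S : Finset (Vx d)} {b c : Vx d} (h : adj ω b c) (hb : b ∈ S)
    (hc : c ∈ S) : adj (ω ∩ ↑(edg S)) b c := by
  obtain ⟨i, h | h⟩ := h
  · refine ⟨i, Or.inl ⟨⟨h.1, ?_⟩, h.2⟩⟩
    rw [Finset.mem_coe, mem_edg]
    refine ⟨hb, ?_⟩
    show b + uv i ∈ S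
    rw [← h.2]
    exact hc
  · refine ⟨i, Or.inr ⟨⟨h.1, ?_⟩, h.2⟩⟩
    rw [Finset.mem_coe, mem_edg]
    refine ⟨hc, ?_⟩
    show c + uv i ∈ S
    rw [← h.2]
    exact hb

/-- first exit from the cube -/
theorem far_arm {z : Vx d} {R : ℤ} (hR : 0 ≤ R) {η : Set (Ed d)} (h : FarP R η z) :
    ArmE z R η := by
  have key : ∀ w, conn η z w → ArmE z R η ∨ (w ∈ cube z R ∧ conn (η ∩ ↑(edg (cube z R))) z w) := by
    intro w hw
    unfold conn at hw
    induction hw with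
    | refl =>
      right
      refine ⟨?_, conn_refl _ _⟩
      rw [mem_cube]
      intro i
      rw [sub_self, abs_zero]
      exact hR
    | @tail b c _ h2 ih =>
      rcases ih with ih | ⟨hb, hc⟩
      · exact Or.inl ih
      by_cases hbd : ∃ i, |b i - z i| = R
      · exact Or.inl ⟨b, hbd, hb, hc⟩
      right
      have hb' := (mem_cube z R b).mp hb
      have hcm : c ∈ cube z R := by
        rw [mem_cube]
        intro i
        have h3 := hb' i
        have h4 : |b i - z i| ≠ R := fun h => hbd ⟨i, h⟩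
        have h5 := adj_abs h2 i
        have h6 : |b i - z i| < R := lt_of_le_of_ne h3 h4
        have h7 : c i - z i = (c i - b i) + (b i - z i) := by ring
        rw [h7]
        have := abs_add_le (c i - b i) (b i - z i)
        omega
      exact ⟨hcm, Relation.ReflTransGen.tail hc (adj_edg h2 hb hcm)⟩
  obtain ⟨v, hv, i, hi⟩ := h
  rcases key v hv with h1 | ⟨h1, h2⟩
  · exact h1
  · refine ⟨v, ⟨i, ?_⟩, h1, h2⟩
    exact le_antisymm ((mem_cube z R v).mp h1 i) hi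

theorem armE_inter {z : Vx d} {R : ℤ} {η : Set (Ed d)} :
    ArmE z R (η ∩ ↑(edg (cube z R))) ↔ ArmE z R η := by
  unfold ArmE
  rw [Set.inter_assoc, Set.inter_self]

theorem cube_sub {z z' : Vx d} {r r' : ℤ} (h : ∀ i, |z' i - z i| + r' ≤ r) :
    cube z' r' ⊆ cube z r := by
  intro v hv
  rw [mem_cube] at hv ⊢
  intro i
  have h1 := hv i
  have h2 := h i
  have h3 : v i - z i = (v i - z' i) + (z' i - z i) := by ring
  rw [h3]
  have := abs_add_le (v i - z' i) (z' i - z i)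
  omega

theorem edg_mono {S S' : Finset (Vx d)} (h : S ⊆ S') : edg S ⊆ edg S' := by
  intro e he
  rw [mem_edg] at he ⊢
  exact ⟨h he.1, h he.2⟩

/-- boundaries of edges outside the cube vanish in its interior -/
theorem bd_int {z : Vx d} {n : ℤ} {y : Finset (Ed d)} (hy : ∀ e ∈ y, e ∉ edg (cube z n)) {v : Vx d}
    (hv : ∀ i, |v i - z i| < n) : bd y v = 0 := by
  unfold bd
  rw [Finset.sum_apply]
  refine Finset.sum_eq_zero fun e he => ?_
  refine bde_zero_of_ne ?_ ?_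
  · intro h
    apply hy e he
    rw [mem_edg, mem_cube, mem_cube]
    refine ⟨fun i => ?_, fun i => ?_⟩
    · rw [h]
      exact (hv i).le
    · have h1 : tip e i - z i = (tip e i - e.1 i) + (v i - z i) := by rw [h]; ring
      rw [h1]
      have h2 := step_abs e.1 e.2 i
      have h3 := hv i
      have h4 := abs_add_le (tip e i - e.1 i) (v i - z i)
      have h5 : |tip e i - e.1 i| ≤ 1 := h2
      omega
  · intro h
    apply hy e he
    rw [mem_edg, mem_cube, mem_cube]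
    refine ⟨fun i => ?_, fun i => ?_⟩
    · have h1 : e.1 i - z i = -(tip e i - e.1 i) + (v i - z i) := by rw [← h]; ring
      rw [h1]
      have h2 := step_abs e.1 e.2 i
      have h3 := hv i
      have h4 := abs_add_le (-(tip e i - e.1 i)) (v i - z i)
      have h5 : |tip e i - e.1 i| ≤ 1 := h2
      rw [abs_neg] at h4
      omega
    · rw [h]
      exact (hv i).le

/-! ### ratio mixing inside a larger edge set -/

/-- factorisation in a shell: all sources `bd y`, `y` in the core, against all `S` vanishing in the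
interior of the cube of radius `n` -/
def Fct (x ε : ℝ) (z : Vx d) (r n : ℤ) : Prop :=
  ∀ y : Finset (Ed d), y ⊆ edg (cube z r) → ∀ S : Vx d → ZMod 2,
    (∀ v, (∀ i, |v i - z i| < n) → S v = 0) →
    ZZ (loopM x) (edg (cube z n) \ edg (cube z r)) (bd y + S) *
        ZZ (loopM x) (edg (cube z n) \ edg (cube z r)) 0 ≤
      (1 + ε) * (ZZ (loopM x) (edg (cube z n) \ edg (cube z r)) (bd y) *
        ZZ (loopM x) (edg (cube z n) \ edg (cube z r)) S)

theorem EL_union1 (x : ℝ) {E U T : Finset (Ed d)} (hU : U ⊆ E) (hT : T ⊆ U) (A : Vx d → ZMod 2)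
    (f : Finset (Ed d) → ℝ) :
    EL (loopM x) E A (fun η => f (η ∩ T)) =
      ∑ y ∈ (E \ U).powerset, x ^ y.card * EL (loopM x) U (A + bd y) (fun η => f (η ∩ T)) := by
  have h := EL_union (loopM x) (E \ U) U Finset.sdiff_disjoint A (fun η => f (η ∩ T))
  rw [Finset.sdiff_union_of_subset hU] at h
  rw [h]
  refine Finset.sum_congr rfl fun y hy => ?_
  rw [Finset.mem_powerset] at hy
  have h1 : (loopM x).a = x := rfl
  have h2 : (loopM x).b = 1 := rfl
  have h3 : (loopM x).s = 1 := rfl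
  rw [h1, h2, h3, one_pow, mul_one, one_smul]
  congr 1
  refine EL_congr _ _ _ _ _ fun ζ _ => ?_
  have h5 : (y ∪ ζ) ∩ T = ζ ∩ T := by
    rw [Finset.union_inter_distrib_right]
    have h6 : y ∩ T = ∅ := by
      rw [← Finset.disjoint_iff_inter_eq_empty]
      exact (Finset.sdiff_disjoint.mono_left hy).mono_right hT
    rw [h6, Finset.empty_union]
  rw [h5]

theorem ZZ_union1 (x : ℝ) {E U : Finset (Ed d)} (hU : U ⊆ E) (A : Vx d → ZMod 2) :
    ZZ (loopM x) E A = ∑ y ∈ (E \ U).powerset, x ^ y.card * ZZ (loopM x) U (A + bd y) :=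
  EL_union1 x hU (T := ∅) (Finset.empty_subset U) A (fun _ => 1)

/-- upper comparison of the law in the core in `E` and in the cube -/
theorem cmp_up {x ε : ℝ} (hx : 0 ≤ x) (hx1 : x ≤ 1) (hε : 0 ≤ ε) {z : Vx d} {r n : ℤ}
    (hrn : r ≤ n) (hF : Fct x ε z r n) {E : Finset (Ed d)} (hE : edg (cube z n) ⊆ E)
    {A : Vx d → ZMod 2} (hA : ∀ v, (∀ i, |v i - z i| < n) → A v = 0)
    {f : Finset (Ed d) → ℝ} (hf : ∀ y, y ⊆ edg (cube z r) → 0 ≤ f y) :
    EL (loopM x) E A (fun η => f (η ∩ edg (cube z r))) * ZZ (loopM x) (edg (cube z n)) 0 ≤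
      (1 + ε) * (EL (loopM x) (edg (cube z n)) 0 (fun η => f (η ∩ edg (cube z r))) *
        ZZ (loopM x) E A) := by
  have hT : edg (cube z r) ⊆ edg (cube z n) :=
    edg_mono (cube_sub fun i => by rw [sub_self, abs_zero]; omega)
  rw [EL_union1 x hE hT, ZZ_union1 x hE, Finset.sum_mul, Finset.mul_sum, Finset.mul_sum]
  refine Finset.sum_le_sum fun y hy => ?_
  rw [Finset.mem_powerset] at hy
  have h1 : ∀ v, (∀ i, |v i - z i| < n) → (A + bd y) v = 0 := by
    intro v hv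
    rw [Pi.add_apply, hA v hv, zero_add]
    exact bd_int (fun e he => (Finset.mem_sdiff.mp (hy he)).2) hv
  have h := Rm.RMu (f := f) hx hx1 hε hT hf (fun w hw => hF w hw (A + bd y) h1)
  have h2 := mul_le_mul_of_nonneg_left h (pow_nonneg hx y.card)
  refine le_trans (le_of_eq ?_) (h2.trans (le_of_eq ?_))
  · ring
  · ring

/-- lower comparison -/
theorem cmp_lo {x ε : ℝ} (hx : 0 ≤ x) (hx1 : x ≤ 1) (hε : 0 ≤ ε) {z : Vx d} {r n : ℤ}
    (hrn : r ≤ n) (hF : Fct x ε z r n) {E : Finset (Ed d)} (hE : edg (cube z n) ⊆ E)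
    {A : Vx d → ZMod 2} (hA : ∀ v, (∀ i, |v i - z i| < n) → A v = 0)
    {f : Finset (Ed d) → ℝ} (hf : ∀ y, y ⊆ edg (cube z r) → 0 ≤ f y) :
    EL (loopM x) (edg (cube z n)) 0 (fun η => f (η ∩ edg (cube z r))) * ZZ (loopM x) E A ≤
      (1 + ε) * (EL (loopM x) E A (fun η => f (η ∩ edg (cube z r))) *
        ZZ (loopM x) (edg (cube z n)) 0) := by
  have hT : edg (cube z r) ⊆ edg (cube z n) :=
    edg_mono (cube_sub fun i => by rw [sub_self, abs_zero]; omega)
  rw [EL_union1 x hE hT, ZZ_union1 x hE, Finset.sum_mul, Finset.mul_sum, Finset.mul_sum]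
  refine Finset.sum_le_sum fun y hy => ?_
  rw [Finset.mem_powerset] at hy
  have h1 : ∀ v, (∀ i, |v i - z i| < n) → (A + bd y) v = 0 := by
    intro v hv
    rw [Pi.add_apply, hA v hv, zero_add]
    exact bd_int (fun e he => (Finset.mem_sdiff.mp (hy he)).2) hv
  have h := Rm.RMl (f := f) hx hx1 hε hT hf (fun w hw => hF w hw (A + bd y) h1)
  have h2 := mul_le_mul_of_nonneg_left h (pow_nonneg hx y.card)
  refine le_trans (le_of_eq ?_) (h2.trans (le_of_eq ?_))
  · ring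
  · ring

/-! ### translations -/

theorem tip_shE (a : Vx d) (e : Ed d) : tip (shE a e) = tip e + a := by
  unfold tip shE
  show e.1 + a + uv e.2 = e.1 + uv e.2 + a
  abel

theorem bde_shE (a : Vx d) (e : Ed d) (v : Vx d) : bde (shE a e) (v + a) = bde e v := by
  unfold bde
  rw [tip_shE]
  show (Pi.single (e.1 + a) 1 + Pi.single (tip e + a) 1 : Vx d → ZMod 2) (v + a) = _
  rw [Pi.add_apply, Pi.add_apply, Pi.single_apply, Pi.single_apply, Pi.single_apply,
    Pi.single_apply]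
  simp only [add_left_inj]

theorem bd_shE (a : Vx d) (η : Finset (Ed d)) (v : Vx d) :
    bd (η.image (shE a)) (v + a) = bd η v := by
  unfold bd
  rw [Finset.sum_image (fun _ _ _ _ h => shE_inj a h), Finset.sum_apply, Finset.sum_apply]
  exact Finset.sum_congr rfl fun e _ => bde_shE a e v

theorem EL_shE (x : ℝ) (a : Vx d) (E : Finset (Ed d)) (A : Vx d → ZMod 2)
    (f : Finset (Ed d) → ℝ) :
    EL (loopM x) (E.image (shE a)) A f =
      EL (loopM x) E (fun v => A (v + a)) (fun η => f (η.image (shE a))) := by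
  classical
  unfold EL
  have h1 : (E.image (shE a)).powerset = E.powerset.image (fun η => η.image (shE a)) := by
    ext t
    rw [Finset.mem_powerset, Finset.mem_image]
    constructor
    · intro h
      obtain ⟨s, hs, rfl⟩ := Finset.subset_image_iff.mp h
      exact ⟨s, Finset.mem_powerset.mpr (by exact_mod_cast hs), rfl⟩
    · rintro ⟨s, hs, rfl⟩
      exact Finset.image_subset_image (Finset.mem_powerset.mp hs)
  rw [h1, Finset.sum_image (fun η _ η' _ h => Finset.image_injective (shE_inj a) h)]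
  refine Finset.sum_congr rfl fun η _ => ?_
  rw [Finset.card_image_of_injective _ (shE_inj a), ← Finset.image_sdiff _ _ (shE_inj a),
    Finset.card_image_of_injective _ (shE_inj a)]
  have h2 : ((loopM x).s • bd (η.image (shE a)) = A) ↔
      ((loopM x).s • bd η = fun v => A (v + a)) := by
    show ((1 : ZMod 2) • bd (η.image (shE a)) = A) ↔ ((1 : ZMod 2) • bd η = fun v => A (v + a))
    rw [one_smul, one_smul]
    constructor
    · intro h
      funext v
      rw [← bd_shE a, h]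
    · intro h
      funext v
      have h3 := congrFun h (v - a)
      rw [← bd_shE a, sub_add_cancel] at h3
      exact h3
  rw [ind_congr h2]

theorem edg_cube_shift (z : Vx d) (r : ℤ) :
    edg (cube z r) = (edg (cube 0 r)).image (shE z) := by
  have h := bx_shift z (fun i => (0 : Vx d) i - r) (fun i => (0 : Vx d) i + r)
  unfold bx at h
  have e1 : ((fun i => (0 : Vx d) i - r) + z : Vx d) = fun i => z i - r := by
    funext i
    rw [Pi.add_apply, Pi.zero_apply]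
    ring
  have e2 : ((fun i => (0 : Vx d) i + r) + z : Vx d) = fun i => z i + r := by
    funext i
    rw [Pi.add_apply, Pi.zero_apply]
    ring
  rw [e1, e2] at h
  exact h

theorem armE_shift {z : Vx d} {R : ℤ} {η : Finset (Ed d)} :
    ArmE z R (↑(η.image (shE z)) : Set (Ed d)) ↔ ArmE 0 R (↑η : Set (Ed d)) := by
  classical
  have e1 : (↑(η.image (shE z)) : Set (Ed d)) ∩ ↑(edg (cube z R)) =
      shE z '' ((↑η : Set (Ed d)) ∩ ↑(edg (cube (0 : Vx d) R))) := by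
    rw [edg_cube_shift, Finset.coe_image, Finset.coe_image, Set.image_inter (shE_inj z)]
  unfold ArmE
  rw [e1]
  constructor
  · rintro ⟨v, ⟨i, hi⟩, h2, h3⟩
    refine ⟨v - z, ⟨i, ?_⟩, ?_, ?_⟩
    · rw [Pi.sub_apply, Pi.zero_apply, sub_zero]
      exact hi
    · rw [mem_cube] at h2 ⊢
      intro j
      rw [Pi.sub_apply, Pi.zero_apply, sub_zero]
      exact h2 j
    · rw [← conn_shift z, sub_add_cancel, zero_add]
      exact h3
  · rintro ⟨v, ⟨i, hi⟩, h2, h3⟩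
    refine ⟨v + z, ⟨i, ?_⟩, ?_, ?_⟩
    · rw [Pi.add_apply, add_sub_cancel_right]
      rw [Pi.zero_apply, sub_zero] at hi
      exact hi
    · rw [mem_cube] at h2 ⊢
      intro j
      rw [Pi.add_apply, add_sub_cancel_right]
      have := h2 j
      rw [Pi.zero_apply, sub_zero] at this
      exact this
    · have := (conn_shift z _ _ _).mpr h3
      rwa [zero_add] at this

theorem arm_shift (x : ℝ) (z : Vx d) (r n : ℤ) :
    EL (loopM x) (edg (cube z n)) 0
        (fun η => ind (ArmE z r (↑(η ∩ edg (cube z r)) : Set (Ed d)))) =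
      EL (loopM x) (edg (cube (0 : Vx d) n)) 0
        (fun η => ind (ArmE 0 r (↑(η ∩ edg (cube (0 : Vx d) r)) : Set (Ed d)))) := by
  classical
  rw [edg_cube_shift z n, EL_shE]
  have h0 : (fun v : Vx d => (0 : Vx d → ZMod 2) (v + z)) = 0 := rfl
  rw [h0]
  refine EL_congr _ _ _ _ _ fun η _ => ?_
  refine ind_congr ?_
  rw [Finset.coe_inter, armE_inter, Finset.coe_inter, armE_inter, armE_shift]

theorem ZZ_shift0 (x : ℝ) (z : Vx d) (n : ℤ) :
    ZZ (loopM x) (edg (cube z n)) 0 = ZZ (loopM x) (edg (cube (0 : Vx d) n)) 0 := by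
  unfold ZZ
  rw [edg_cube_shift z n, EL_shE]
  rfl

/-! ### the union bound -/

theorem LE_eq (x : ℝ) (E : Finset (Ed d)) (A : Vx d → ZMod 2) (f : Finset (Ed d) → ℝ) :
    LE x E A f = EL (loopM x) E A f := by
  unfold LE EL
  refine Finset.sum_congr rfl fun η _ => ?_
  rw [Finset.prod_const]
  show _ = ind ((1 : ZMod 2) • bd η = A) * (x ^ η.card * 1 ^ (E \ η).card) * f η
  rw [one_smul, one_pow, mul_one]

open Classical in
/-- the ring as a finite set -/
noncomputable def RF (o : Vx d) (i0 i1 : Fin d) (m : ℤ) : Finset (Vx d) :=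
  Tq o i0 i1 m m (-m) ∪ Tq o i0 i1 m (-2 * m) m ∪ Tq o i0 i1 m (-4 * m) (-2 * m) ∪
    Tq o i0 i1 m (-m) (-4 * m)

theorem mem_RF {o : Vx d} {i0 i1 : Fin d} {m : ℤ} {v : Vx d} :
    v ∈ RF o i0 i1 m ↔ v ∈ RR o i0 i1 m := by
  unfold RF RR
  rw [Finset.mem_union, Finset.mem_union, Finset.mem_union]
  show _ ↔ (v ∈ Tq o i0 i1 m m (-m) ∨ v ∈ Tq o i0 i1 m (-2 * m) m ∨
    v ∈ Tq o i0 i1 m (-4 * m) (-2 * m) ∨ v ∈ Tq o i0 i1 m (-m) (-4 * m))
  tauto

theorem card_Tq (o : Vx d) (i0 i1 : Fin d) (m : ℕ) (a b : ℤ) :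
    (Tq o i0 i1 m a b).card = (3 * m + 1) ^ d := by
  unfold Tq
  rw [Pi.card_Icc]
  have : ∀ i ∈ (Finset.univ : Finset (Fin d)),
      (Finset.Icc (cq o i0 i1 a b i)
        ((cq o i0 i1 a b + (fun _ : Fin d => 3 * (m : ℤ)) : Vx d) i)).card = 3 * m + 1 := by
    intro i _
    have h : (cq o i0 i1 a b + (fun _ : Fin d => 3 * (m : ℤ)) : Vx d) i =
      cq o i0 i1 a b i + 3 * m := rfl
    rw [Int.card_Icc, h]
    omega
  rw [Finset.prod_congr rfl this, Finset.prod_const, Finset.card_univ, Fintype.card_fin]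

theorem card_RF (o : Vx d) (i0 i1 : Fin d) (m : ℕ) :
    (RF o i0 i1 m).card ≤ 4 * (3 * m + 1) ^ d := by
  classical
  unfold RF
  have h1 := Finset.card_union_le (Tq o i0 i1 (m : ℤ) m (-m) ∪ Tq o i0 i1 m (-2 * m) m ∪
    Tq o i0 i1 m (-4 * m) (-2 * m)) (Tq o i0 i1 m (-m) (-4 * m))
  have h2 := Finset.card_union_le (Tq o i0 i1 (m : ℤ) m (-m) ∪ Tq o i0 i1 m (-2 * m) m)
    (Tq o i0 i1 m (-4 * m) (-2 * m))
  have h3 := Finset.card_union_le (Tq o i0 i1 (m : ℤ) m (-m)) (Tq o i0 i1 m (-2 * m) m)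
  rw [card_Tq] at h1 h2 h3
  rw [card_Tq] at h3
  omega

theorem ind_ex_le {V : Finset (Vx d)} {P : Vx d → Prop} :
    ind (∃ u, u ∈ V ∧ P u) ≤ ∑ u ∈ V, ind (P u) := by
  by_cases h : ∃ u, u ∈ V ∧ P u
  · obtain ⟨u, hu, hp⟩ := h
    rw [ind_true ⟨u, hu, hp⟩, ← ind_true hp]
    exact Finset.single_le_sum (f := fun u => ind (P u)) (fun u _ => ind_nonneg _) hu
  · rw [ind_false h]
    exact Finset.sum_nonneg fun u _ => ind_nonneg _

/-- the ring is inside the cube of radius `4 m` -/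
theorem RR_cube {i0 i1 : Fin d} {m : ℤ} (hm : 0 ≤ m) {u : Vx d} {o : Vx d}
    (hu : u ∈ RR o i0 i1 m) : u ∈ cube o (4 * m) := by
  have key : ∀ a b : ℤ, -(4 * m) ≤ a → a ≤ m → -(4 * m) ≤ b → b ≤ m → u ∈ Tq o i0 i1 m a b →
      u ∈ cube o (4 * m) := by
    intro a b h1 h2 h3 h4 h
    rw [mem_cube]
    intro i
    have h5 := Finset.mem_Icc.mp h
    have h6 : cq o i0 i1 a b i ≤ u i := h5.1 i
    have h7 : u i ≤ cq o i0 i1 a b i + 3 * m := h5.2 i
    have h8 : cq o i0 i1 a b i = o i + a ∨ cq o i0 i1 a b i = o i + b ∨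
        cq o i0 i1 a b i = o i := by
      rw [cq_apply]
      split_ifs
      · exact Or.inl rfl
      · exact Or.inr (Or.inl rfl)
      · exact Or.inr (Or.inr rfl)
    rw [abs_le]
    rcases h8 with h8 | h8 | h8 <;> rw [h8] at h6 h7 <;> constructor <;> omega
  rcases hu with h | h | h | h
  · exact key _ _ (by omega) (by omega) (by omega) (by omega) h
  · exact key _ _ (by omega) (by omega) (by omega) (by omega) h
  · exact key _ _ (by omega) (by omega) (by omega) (by omega) h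
  · exact key _ _ (by omega) (by omega) (by omega) (by omega) h

theorem Tq_sub {i0 i1 : Fin d} {m : ℤ} (hm : 0 ≤ m) {o : Vx d} {E : Finset (Ed d)}
    (hE : edg (cube o (4 * m)) ⊆ E) :
    edg (Tq o i0 i1 m m (-m)) ⊆ E ∧ edg (Tq o i0 i1 m (-2 * m) m) ⊆ E ∧
    edg (Tq o i0 i1 m (-4 * m) (-2 * m)) ⊆ E ∧ edg (Tq o i0 i1 m (-m) (-4 * m)) ⊆ E := by
  refine ⟨(edg_mono fun u hu => ?_).trans hE, (edg_mono fun u hu => ?_).trans hE,
    (edg_mono fun u hu => ?_).trans hE, (edg_mono fun u hu => ?_).trans hE⟩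
  · exact RR_cube hm (Or.inl hu)
  · exact RR_cube hm (Or.inr (Or.inl hu))
  · exact RR_cube hm (Or.inr (Or.inr (Or.inl hu)))
  · exact RR_cube hm (Or.inr (Or.inr (Or.inr hu)))

/-- **Ring lemma, summed form.** -/
theorem ring_sum {x : ℝ} (hx0 : 0 < x) (hx1 : x < 1) {o : Vx d} {i0 i1 : Fin d}
    (hi : i0 ≠ i1) {m : ℤ} (hm : 1 ≤ m) {E : Finset (Ed d)} {c : ℝ} (hc0 : 0 ≤ c)
    (hE : edg (cube o (4 * m)) ⊆ E)
    (hc : ∀ a b : ℤ, ∀ u ∈ Tq o i0 i1 m a b, ∀ v ∈ Tq o i0 i1 m a b,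
      c * ZA bde (fun _ => x) (edg (Tq o i0 i1 m a b)) 0 ≤
        ZA bde (fun _ => x) (edg (Tq o i0 i1 m a b)) (pt u v))
    (A : Vx d → ZMod 2)
    (hA : ∀ u ∈ RR o i0 i1 m, ∀ v, (∀ i, |v i - u i| < m) → A v = 0) :
    c ^ 4 / 2 * ZZ (loopM x) E A ≤
      ∑ u ∈ RF o i0 i1 m, EL (loopM x) E A fun η => ind (FarP m (↑η : Set (Ed d)) u) := by
  obtain ⟨h1, h2, h3, h4⟩ := Tq_sub (i0 := i0) (i1 := i1) (by omega : (0 : ℤ) ≤ m) hE
  have h := ring hx0 hx1 hi hm hc0 h1 h2 h3 h4 hc A hA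
  rw [ZA_eq_ZZ, LE_eq] at h
  refine h.trans ?_
  rw [← EL_sum]
  refine EL_mono (loopM x) hx0.le zero_le_one _ _ _ _ fun η _ => ?_
  refine le_trans (ind_mono ?_) ind_ex_le
  rintro ⟨u, hu, hf⟩
  exact ⟨u, mem_RF.mpr hu, hf⟩

/-! ### the arm -/

theorem Tq_bo (o : Vx d) (i0 i1 : Fin d) (m : ℕ) (a b : ℤ) :
    Tq o i0 i1 m a b = Slb.bo (cq o i0 i1 a b) (fun _ => 3 * m + 1) := by
  ext v
  rw [Slb.mem_bo]
  unfold Tq
  rw [Finset.mem_Icc, Pi.le_def, Pi.le_def]
  constructor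
  · rintro ⟨h1, h2⟩ k
    have h3 := h1 k
    have h4 : v k ≤ cq o i0 i1 a b k + 3 * m := h2 k
    push_cast
    constructor <;> omega
  · intro h
    refine ⟨fun k => (h k).1, fun k => ?_⟩
    have h3 := (h k).2
    push_cast at h3
    show v k ≤ cq o i0 i1 a b k + 3 * m
    omega

/-- the hypothesis of the ring lemma from long range order in cubes -/
theorem hc_of_CUBE {β c : ℝ} (hβ : 0 ≤ β)
    (hC : ∀ (a : Vx d) (n : ℕ), 1 ≤ n → ∀ x ∈ Slb.bo a (fun _ => n), ∀ y ∈ Slb.bo a (fun _ => n),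
      c ≤ TC.cf (Slb.bo a (fun _ => n)) β x y) (o : Vx d) (i0 i1 : Fin d) (m : ℕ) :
    ∀ a b : ℤ, ∀ u ∈ Tq o i0 i1 m a b, ∀ v ∈ Tq o i0 i1 m a b,
      c * ZA bde (fun _ => Real.tanh β) (edg (Tq o i0 i1 m a b)) 0 ≤
        ZA bde (fun _ => Real.tanh β) (edg (Tq o i0 i1 m a b)) (pt u v) := by
  intro a b u hu v hv
  refine ZA_of_cf _ hβ u v hu hv ?_
  rw [Tq_bo] at hu hv ⊢
  exact hC _ _ (by omega) u hu v hv

theorem tanh_pos {β : ℝ} (hβ : 0 < β) : 0 < Real.tanh β := by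
  rw [Real.tanh_eq_sinh_div_cosh]
  exact div_pos (Real.sinh_pos_iff.mpr hβ) (Real.cosh_pos β)

theorem tanh_lt {β : ℝ} : Real.tanh β < 1 := by
  rw [Real.tanh_eq_sinh_div_cosh, div_lt_one (Real.cosh_pos β)]
  exact Real.sinh_lt_cosh β

/-- factorisation in cubic shells of width at least `κ R` around the cubes of radius `R` -/
def FACC (d : ℕ) (x : ℝ) : Prop :=
  ∀ κ : ℝ, 0 < κ → ∀ ε : ℝ, 0 < ε → ∃ R0 : ℕ, ∀ R t : ℕ, R0 ≤ R → κ * R ≤ t → ∀ z : Vx d,
    Fct x ε z R ((R : ℤ) + t)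

/-- **One arm.** -/
theorem arm (hd : 2 ≤ d) {β : ℝ} (hβ : 0 < β) (hC : Slb.CUBE d β) (hF : FACC d (Real.tanh β)) :
    ∀ κ : ℝ, 0 < κ → ∃ c : ℝ, 0 < c ∧ ∃ R0 : ℕ, ∀ R t : ℕ, R0 ≤ R → κ * R ≤ t →
      c / (R : ℝ) ^ d * ZZ (loopM (Real.tanh β)) (edg (cube (0 : Vx d) ((R : ℤ) + t))) 0 ≤
        EL (loopM (Real.tanh β)) (edg (cube (0 : Vx d) ((R : ℤ) + t))) 0 fun η =>
          ind (∃ v : Vx d, (∃ i, |v i| = R) ∧ v ∈ cube (0 : Vx d) R ∧
            conn ((↑η : Set (Ed d)) ∩ ↑(edg (cube (0 : Vx d) R))) 0 v) := by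
  classical
  intro κ hκ
  obtain ⟨c, hc, hcf⟩ := hC
  obtain ⟨R1, hR1⟩ := hF κ hκ 1 one_pos
  refine ⟨c ^ 4 / (16 * 4 ^ d), by positivity, R1 + 1, fun R t hR ht => ?_⟩
  have hx0 : 0 < Real.tanh β := tanh_pos hβ
  have hx1 : Real.tanh β < 1 := tanh_lt
  set x := Real.tanh β with hx
  have hRpos : 1 ≤ R := by omega
  let i0 : Fin d := ⟨0, by omega⟩
  let i1 : Fin d := ⟨1, by omega⟩
  have hi : i0 ≠ i1 := by
    intro h
    have := congrArg Fin.val h
    simp [i0, i1] at this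
  -- the big box
  set N : ℤ := 5 * R + t with hN
  set E := edg (cube (0 : Vx d) N) with hE
  have hE4 : edg (cube (0 : Vx d) (4 * (R : ℤ))) ⊆ E :=
    edg_mono (cube_sub fun i => by rw [sub_self, abs_zero]; omega)
  have h1 := ring_sum hx0 hx1 hi (m := (R : ℤ)) (by omega) (E := E) hc.le hE4
    (hc_of_CUBE hβ.le hcf 0 i0 i1 R) 0 (fun _ _ _ _ => rfl)
  set P := EL (loopM x) (edg (cube (0 : Vx d) ((R : ℤ) + t))) 0
    (fun η => ind (ArmE 0 R (↑(η ∩ edg (cube (0 : Vx d) R)) : Set (Ed d)))) with hP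
  set Z0 := ZZ (loopM x) (edg (cube (0 : Vx d) ((R : ℤ) + t))) 0 with hZ0
  set ZE := ZZ (loopM x) E (0 : Vx d → ZMod 2) with hZE
  have pE : 0 < ZE := Rm.ZZ_zero_pos hx0.le E
  have p0 : 0 < Z0 := Rm.ZZ_zero_pos hx0.le _
  have hP0 : 0 ≤ P := EL_nonneg (loopM x) hx0.le zero_le_one _ _ _ fun _ _ => ind_nonneg _
  -- every term of the sum
  have h2 : ∀ u ∈ RF (0 : Vx d) i0 i1 (R : ℤ),
      (EL (loopM x) E 0 fun η => ind (FarP (R : ℤ) (↑η : Set (Ed d)) u)) * Z0 ≤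
        2 * (P * ZE) := by
    intro u hu
    have hu4 := RR_cube (by omega : (0 : ℤ) ≤ R) (mem_RF.mp hu)
    rw [mem_cube] at hu4
    have hsub : edg (cube u ((R : ℤ) + t)) ⊆ E :=
      edg_mono (cube_sub fun i => by have := hu4 i; omega)
    have h3 := cmp_up (E := E) (A := 0)
      (f := fun η => ind (ArmE u R (↑(η ∩ edg (cube u (R : ℤ))) : Set (Ed d)))) hx0.le hx1.le
      zero_le_one (by omega : (R : ℤ) ≤ (R : ℤ) + t) (hR1 R t (by omega) ht u) hsub
      (fun _ _ => rfl) (fun _ _ => ind_nonneg _)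
    have h4 : (EL (loopM x) E 0 fun η => ind (FarP (R : ℤ) (↑η : Set (Ed d)) u)) ≤
        EL (loopM x) E 0 (fun η => (fun η => ind (ArmE u R
          (↑(η ∩ edg (cube u (R : ℤ))) : Set (Ed d)))) (η ∩ edg (cube u (R : ℤ)))) := by
      refine EL_mono (loopM x) hx0.le zero_le_one _ _ _ _ fun η _ => ?_
      refine ind_mono fun h => ?_
      have h5 : η ∩ edg (cube u (R : ℤ)) ∩ edg (cube u (R : ℤ)) = η ∩ edg (cube u (R : ℤ)) := by
        rw [Finset.inter_assoc, Finset.inter_self]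
      rw [h5, Finset.coe_inter, armE_inter]
      exact far_arm (by omega) h
    have h6 : EL (loopM x) (edg (cube u ((R : ℤ) + t))) 0 (fun η => (fun η => ind (ArmE u R
          (↑(η ∩ edg (cube u (R : ℤ))) : Set (Ed d)))) (η ∩ edg (cube u (R : ℤ)))) = P := by
      rw [hP, ← arm_shift x u]
      refine EL_congr _ _ _ _ _ fun η _ => ?_
      show ind _ = ind _
      rw [Finset.inter_assoc, Finset.inter_self]
    rw [h6, ZZ_shift0 x u] at h3
    calc _ ≤ _ := mul_le_mul_of_nonneg_right h4 p0.le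
      _ ≤ _ := h3
      _ = 2 * (P * ZE) := by rw [one_add_one_eq_two]
  have h7 : (c ^ 4 / 2 * ZE) * Z0 ≤ ((RF (0 : Vx d) i0 i1 (R : ℤ)).card : ℝ) * (2 * (P * ZE)) := by
    calc (c ^ 4 / 2 * ZE) * Z0 ≤ (∑ u ∈ RF (0 : Vx d) i0 i1 (R : ℤ),
          EL (loopM x) E 0 fun η => ind (FarP (R : ℤ) (↑η : Set (Ed d)) u)) * Z0 :=
          mul_le_mul_of_nonneg_right h1 p0.le
      _ = ∑ u ∈ RF (0 : Vx d) i0 i1 (R : ℤ),
          (EL (loopM x) E 0 fun η => ind (FarP (R : ℤ) (↑η : Set (Ed d)) u)) * Z0 := by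
          rw [Finset.sum_mul]
      _ ≤ ∑ _u ∈ RF (0 : Vx d) i0 i1 (R : ℤ), 2 * (P * ZE) := Finset.sum_le_sum h2
      _ = _ := by rw [Finset.sum_const, nsmul_eq_mul]
  have h8 : ((RF (0 : Vx d) i0 i1 (R : ℤ)).card : ℝ) ≤ 4 * (4 * R) ^ d := by
    have h9 : (RF (0 : Vx d) i0 i1 (R : ℤ)).card ≤ 4 * (4 * R) ^ d := by
      refine (card_RF _ _ _ R).trans ?_
      exact Nat.mul_le_mul_left 4 (Nat.pow_le_pow_left (by omega) d)
    exact_mod_cast h9
  have h10 : (c ^ 4 / 2 * Z0) * ZE ≤ (4 * (4 * (R : ℝ)) ^ d * 2 * P) * ZE := by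
    calc (c ^ 4 / 2 * Z0) * ZE = (c ^ 4 / 2 * ZE) * Z0 := by ring
      _ ≤ ((RF (0 : Vx d) i0 i1 (R : ℤ)).card : ℝ) * (2 * (P * ZE)) := h7
      _ ≤ (4 * (4 * (R : ℝ)) ^ d) * (2 * (P * ZE)) :=
          mul_le_mul_of_nonneg_right h8 (mul_nonneg zero_le_two (mul_nonneg hP0 pE.le))
      _ = _ := by ring
  have h11 : c ^ 4 / 2 * Z0 ≤ 4 * (4 * (R : ℝ)) ^ d * 2 * P := le_of_mul_le_mul_right h10 pE
  have hRd : (0 : ℝ) < (R : ℝ) ^ d := pow_pos (by exact_mod_cast hRpos) d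
  have h12 : c ^ 4 / (16 * 4 ^ d) / (R : ℝ) ^ d * Z0 ≤ P := by
    rw [div_div, div_mul_eq_mul_div, div_le_iff₀ (by positivity)]
    calc c ^ 4 * Z0 = 2 * (c ^ 4 / 2 * Z0) := by ring
      _ ≤ 2 * (4 * (4 * (R : ℝ)) ^ d * 2 * P) := by linarith
      _ = P * (16 * 4 ^ d * (R : ℝ) ^ d) := by rw [mul_pow]; ring
  refine h12.trans (le_of_eq ?_)
  rw [hP]
  refine EL_congr _ _ _ _ _ fun η _ => ?_
  refine ind_congr ?_
  rw [Finset.coe_inter, armE_inter]
  unfold ArmE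
  simp only [Pi.zero_apply, sub_zero]

end Pool.Agent.Rng
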