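import Pool.Agent.Rng.Arm
import Pool.Agent.S1.Ifc

/-!
# Bridge: factorisation in boxes gives factorisation in cubic shells, and the arm (helper60)
-/

set_option autoImplicit false

namespace Pool.Agent.Rng

open Finset
open Pool.Agent.SRC
open Pool.Agent.Glu (cube mem_cube)

variable {d : ℕ}

theorem fat_cube (z : Vx d) (R t : ℕ) :
    S1.fat (fun i => z i - (R : ℤ)) (fun i => z i + (R : ℤ)) t = cube z ((R : ℤ) + t) := by
  unfold S1.fat cube
  congr 1 <;> · funext k; ring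

theorem facc_of_FAC {x : ℝ} (h : S1.FAC d x) : FACC d x := by
  intro κ hκ ε hε
  obtain ⟨t0, ht0⟩ := h ⌈2 / κ⌉₊ ε hε
  refine ⟨⌈(t0 : ℝ) / κ⌉₊, fun R t hR ht z => ?_⟩
  have h1 : t0 ≤ t := by
    have h2 : (t0 : ℝ) / κ ≤ R := (Nat.le_ceil _).trans (by exact_mod_cast hR)
    have h3 : (t0 : ℝ) ≤ κ * R := by
      rw [div_le_iff₀ hκ] at h2
      linarith
    exact_mod_cast h3.trans ht
  have hA : S1.Adm ⌈2 / κ⌉₊ t (fun i => z i - (R : ℤ)) (fun i => z i + (R : ℤ)) := by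
    intro k
    refine ⟨by show z k - (R : ℤ) ≤ z k + R; omega, ?_⟩
    show z k + (R : ℤ) - (z k - R) ≤ _
    have h4 : z k + (R : ℤ) - (z k - R) = 2 * R := by ring
    rw [h4]
    have h5 : (2 : ℝ) * R ≤ (⌈2 / κ⌉₊ : ℝ) * t := by
      calc (2 : ℝ) * R = 2 / κ * (κ * R) := by field_simp
        _ ≤ (⌈2 / κ⌉₊ : ℝ) * t :=
          mul_le_mul (Nat.le_ceil _) ht (by positivity) (Nat.cast_nonneg _)
    exact_mod_cast h5
  intro y hy S hS
  have h6 := ht0 t h1 _ _ hA y S hy (by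
    intro v hv
    refine hS v fun i => ?_
    have h7 : z i - (R : ℤ) - t < v i ∧ v i < z i + (R : ℤ) + t := hv i
    rw [abs_lt]
    constructor <;> omega)
  rw [fat_cube] at h6
  exact h6

theorem gluFACC_of_FAC {x : ℝ} (h : S1.FAC d x) : Glu.FACC d x := by
  intro κ hκ ε hε
  obtain ⟨R0, h0⟩ := facc_of_FAC h κ hκ ε hε
  refine ⟨R0, fun R t hR ht y hy S hS => h0 R t hR ht 0 y hy S ?_⟩
  intro v hv
  by_contra h1
  obtain ⟨_, i, hi⟩ := hS v h1
  have := hv i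
  rw [Pi.zero_apply, sub_zero] at this
  omega

/-- **(ARM)** in the form of block (GL) -/
theorem gluARM (hd : 2 ≤ d) {β : ℝ} (hβ : 0 < β) (hC : Slb.CUBE d β)
    (hF : S1.FAC d (Real.tanh β)) : Glu.ARM d (Real.tanh β) := by
  intro κ hκ
  obtain ⟨c, hc, R0, h⟩ := arm hd hβ hC (facc_of_FAC hF) κ hκ
  refine ⟨c, hc, R0, fun R t hR ht => ?_⟩
  have h1 := h R t hR ht
  rw [div_eq_mul_inv] at h1
  refine h1.trans ?_
  refine EL_mono (loopM (Real.tanh β)) (tanh_pos hβ).le zero_le_one _ _ _ _ fun η _ => ?_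
  refine ind_mono ?_
  rintro ⟨v, h2, _, h3⟩
  exact ⟨v, h2, h3⟩

end Pool.Agent.Rng
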