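import Pool.Agent.SRC.Defs

/-!
# Ring lemma, deterministic part (helper60)

`i0`, `i1` are two coordinates, `o` the centre.  `R` is a set of vertices whose distance from the
codimension two plane `{x_i0 = o_i0, x_i1 = o_i1}` is at least `m`.  If `g` is an even subgraph in `R`
with an odd number of edges through the half hyperplane `chi`, then one of `η`, `η + g` has a cluster
which meets `R` and reaches distance `m`.
-/

set_option autoImplicit false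

namespace Pool.Agent.Rng

open Finset
open Pool.Agent.SRC

variable {d : ℕ}

/-- `w` is connected in `ω` to a vertex at sup-distance at least `M` (this is `SRC.Far`). -/
def FarP (M : ℤ) (ω : Set (Ed d)) (w : Vx d) : Prop :=
  ∃ v, conn ω w v ∧ ∃ i, M ≤ |v i - w i|

open Classical in
/-- edges through the half hyperplane -/
noncomputable def chi (o : Vx d) (i0 i1 : Fin d) (e : Ed d) : ZMod 2 :=
  if e.2 = i0 ∧ e.1 i0 = o i0 ∧ o i1 < e.1 i1 then 1 else 0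

theorem z2 (a : ZMod 2) : a + a = 0 := CharTwo.add_self_eq_zero a

theorem tip_same (e : Ed d) : tip e e.2 = e.1 e.2 + 1 := by
  unfold tip uv
  simp

theorem tip_ne (e : Ed d) {i : Fin d} (h : i ≠ e.2) : tip e i = e.1 i := by
  unfold tip uv
  simp [Pi.single_eq_of_ne h]

theorem conn_tip {ω : Set (Ed d)} {e : Ed d} (he : e ∈ ω) : conn ω e.1 (tip e) :=
  Relation.ReflTransGen.single ⟨e.2, Or.inl ⟨he, rfl⟩⟩

/-- summation of a gradient over an edge set -/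
theorem sum_bd (p : Finset (Ed d)) (f : Vx d → ZMod 2) (V : Finset (Vx d))
    (hV : ∀ e ∈ p, e.1 ∈ V ∧ tip e ∈ V) :
    ∑ e ∈ p, (f e.1 + f (tip e)) = ∑ v ∈ V, f v * bd p v := by
  classical
  have h1 : ∀ v, bd p v = ∑ e ∈ p, bde e v := by
    intro v
    unfold bd
    rw [Finset.sum_apply]
  have h2 : ∑ v ∈ V, f v * bd p v = ∑ e ∈ p, ∑ v ∈ V, f v * bde e v := by
    rw [Finset.sum_comm]
    refine Finset.sum_congr rfl fun v _ => ?_
    rw [h1, Finset.mul_sum]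
  rw [h2]
  refine Finset.sum_congr rfl fun e he => ?_
  obtain ⟨a1, a2⟩ := hV e he
  have h3 : ∀ a ∈ V, ∑ v ∈ V, f v * (Pi.single a (1 : ZMod 2) : Vx d → ZMod 2) v = f a := by
    intro a ha
    rw [Finset.sum_eq_single a]
    · simp
    · intro b _ hb
      rw [Pi.single_eq_of_ne hb, mul_zero]
    · intro h
      exact absurd ha h
  have h4 : ∀ v, bde e v = (Pi.single e.1 (1 : ZMod 2) : Vx d → ZMod 2) v +
      (Pi.single (tip e) (1 : ZMod 2) : Vx d → ZMod 2) v := fun v => rfl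
  simp only [h4, mul_add, Finset.sum_add_distrib]
  rw [h3 _ a1, h3 _ a2]

/-- the edges of `ζ` in clusters which meet `R` -/
noncomputable def NR (R : Set (Vx d)) (ζ : Finset (Ed d)) : Finset (Ed d) :=
  fl ζ (fun e => ∃ u ∈ R, conn (↑ζ : Set (Ed d)) u e.1)

theorem bde_zero_of_ne {e : Ed d} {v : Vx d} (h1 : e.1 ≠ v) (h2 : tip e ≠ v) : bde e v = 0 := by
  show (Pi.single e.1 (1 : ZMod 2) : Vx d → ZMod 2) v +
      (Pi.single (tip e) (1 : ZMod 2) : Vx d → ZMod 2) v = 0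
  rw [Pi.single_eq_of_ne (Ne.symm h1), Pi.single_eq_of_ne (Ne.symm h2), add_zero]

/-- at a vertex joined to `R` the boundaries of `ζ` and `NR R ζ` agree -/
theorem bd_NR {R : Set (Vx d)} {ζ : Finset (Ed d)} {v : Vx d}
    (hv : ∃ u ∈ R, conn (↑ζ : Set (Ed d)) u v) : bd (NR R ζ) v = bd ζ v := by
  classical
  obtain ⟨u, hu, huv⟩ := hv
  unfold bd
  rw [Finset.sum_apply, Finset.sum_apply]
  refine Finset.sum_subset (fl_subset _ _) fun e he hne => ?_
  have h1 : ¬ ∃ u ∈ R, conn (↑ζ : Set (Ed d)) u e.1 := fun h => hne ((mem_fl _ _ _).mpr ⟨he, h⟩)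
  refine bde_zero_of_ne (fun h => h1 ⟨u, hu, h ▸ huv⟩) (fun h => h1 ⟨u, hu, ?_⟩)
  rw [← h] at huv
  exact conn_trans huv (conn_symm (conn_tip he))

theorem chi_eq {m : ℤ} {o : Vx d} {i0 i1 : Fin d} {R : Set (Vx d)}
    (hR : ∀ u ∈ R, m ≤ |u i0 - o i0| ∨ m ≤ |u i1 - o i1|)
    {ζ : Finset (Ed d)} (hF : ¬ ∃ u ∈ R, FarP m (↑ζ : Set (Ed d)) u)
    {s : Vx d → ZMod 2}
    (hs : ∀ v, (o i0 < v i0 ∧ ∃ u ∈ R, conn (↑ζ : Set (Ed d)) u v ∧ m ≤ u i1 - o i1) → s v = 1)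
    (hs0 : ∀ v, ¬ (o i0 < v i0 ∧ ∃ u ∈ R, conn (↑ζ : Set (Ed d)) u v ∧ m ≤ u i1 - o i1) → s v = 0)
    {e : Ed d} (he : e ∈ NR R ζ) : chi o i0 i1 e = s e.1 + s (tip e) := by
  classical
  obtain ⟨heζ, u0, hu0, hc0⟩ := (mem_fl _ _ _).mp he
  have hnear : ∀ u ∈ R, ∀ v, conn (↑ζ : Set (Ed d)) u v → ∀ i, |v i - u i| < m := by
    intro u hu v hv i
    by_contra hcon
    exact hF ⟨u, hu, v, hv, i, not_lt.mp hcon⟩
  have hct : conn (↑ζ : Set (Ed d)) e.1 (tip e) := conn_tip (by exact_mod_cast heζ)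
  by_cases hA : ∃ u ∈ R, conn (↑ζ : Set (Ed d)) u e.1 ∧ m ≤ u i1 - o i1
  · obtain ⟨u, hu, hue, hum⟩ := hA
    have hut := conn_trans hue hct
    have h1 := abs_lt.mp (hnear u hu _ hue i1)
    have hy : o i1 < e.1 i1 := by omega
    have f1 : s e.1 = if o i0 < e.1 i0 then 1 else 0 := by
      split_ifs with h
      · exact hs _ ⟨h, u, hu, hue, hum⟩
      · exact hs0 _ fun h' => h h'.1
    have f2 : s (tip e) = if o i0 < tip e i0 then 1 else 0 := by
      split_ifs with h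
      · exact hs _ ⟨h, u, hu, hut, hum⟩
      · exact hs0 _ fun h' => h h'.1
    rw [f1, f2]
    by_cases he2 : e.2 = i0
    · have ht : tip e i0 = e.1 i0 + 1 := by rw [← he2]; exact tip_same e
      rw [ht]
      unfold chi
      rcases lt_trichotomy (e.1 i0) (o i0) with h | h | h
      · rw [if_neg (fun h' => absurd h'.2.1 (by omega)), if_neg (by omega), if_neg (by omega)]
        simp
      · rw [if_pos ⟨he2, h, hy⟩, if_neg (by omega), if_pos (by omega)]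
        simp
      · rw [if_neg (fun h' => absurd h'.2.1 (by omega)), if_pos (by omega), if_pos (by omega)]
        exact (z2 1).symm
    · have ht : tip e i0 = e.1 i0 := tip_ne e (Ne.symm he2)
      rw [ht, z2]
      unfold chi
      rw [if_neg fun h => he2 h.1]
  · have f1 : s e.1 = 0 := hs0 _ fun h => hA (by
      obtain ⟨_, u, hu, h1, h2⟩ := h
      exact ⟨u, hu, h1, h2⟩)
    have f2 : s (tip e) = 0 := hs0 _ fun h => hA (by
      obtain ⟨_, u, hu, h1, h2⟩ := h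
      exact ⟨u, hu, conn_trans h1 (conn_symm hct), h2⟩)
    rw [f1, f2, add_zero]
    unfold chi
    rw [if_neg]
    rintro ⟨_, h2, h3⟩
    have g0 := abs_lt.mp (hnear u0 hu0 _ hc0 i0)
    have g1 := abs_lt.mp (hnear u0 hu0 _ hc0 i1)
    have hA' : ¬ m ≤ u0 i1 - o i1 := fun h => hA ⟨u0, hu0, hc0, h⟩
    rcases hR u0 hu0 with h | h
    · rcases abs_cases (u0 i0 - o i0) with ⟨h4, _⟩ | ⟨h4, _⟩ <;> omega
    · rcases abs_cases (u0 i1 - o i1) with ⟨h4, _⟩ | ⟨h4, _⟩ <;> omega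

/-- small clusters near the ring have even crossing -/
theorem chi_NR {m : ℤ} {o : Vx d} {i0 i1 : Fin d} {R : Set (Vx d)}
    (hR : ∀ u ∈ R, m ≤ |u i0 - o i0| ∨ m ≤ |u i1 - o i1|)
    {ζ : Finset (Ed d)} (hF : ¬ ∃ u ∈ R, FarP m (↑ζ : Set (Ed d)) u)
    (hA : ∀ u ∈ R, ∀ v, (∀ i, |v i - u i| < m) → bd ζ v = 0) :
    ∑ e ∈ NR R ζ, chi o i0 i1 e = 0 := by
  classical
  let s : Vx d → ZMod 2 := fun v =>
    if o i0 < v i0 ∧ ∃ u ∈ R, conn (↑ζ : Set (Ed d)) u v ∧ m ≤ u i1 - o i1 then 1 else 0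
  have h1 : ∑ e ∈ NR R ζ, chi o i0 i1 e = ∑ e ∈ NR R ζ, (s e.1 + s (tip e)) := by
    refine Finset.sum_congr rfl fun e he => ?_
    exact chi_eq hR hF (fun v hv => if_pos hv) (fun v hv => if_neg hv) he
  rw [h1, sum_bd (NR R ζ) s ((NR R ζ).image Prod.fst ∪ (NR R ζ).image tip)]
  · refine Finset.sum_eq_zero fun v _ => ?_
    by_cases hv : o i0 < v i0 ∧ ∃ u ∈ R, conn (↑ζ : Set (Ed d)) u v ∧ m ≤ u i1 - o i1
    · obtain ⟨_, u, hu, h3, _⟩ := hv
      rw [bd_NR ⟨u, hu, h3⟩, hA u hu v, mul_zero]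
      intro i
      by_contra hcon
      exact hF ⟨u, hu, v, h3, i, not_lt.mp hcon⟩
    · have : s v = 0 := if_neg hv
      rw [this, zero_mul]
  · intro e he
    exact ⟨Finset.mem_union_left _ (Finset.mem_image_of_mem _ he),
      Finset.mem_union_right _ (Finset.mem_image_of_mem _ he)⟩

theorem conn_R {R : Set (Vx d)} {η g : Finset (Ed d)} (hgR : ∀ e ∈ g, e.1 ∈ R ∧ tip e ∈ R)
    {u a : Vx d} (hu : u ∈ R) (h : conn (↑(symmDiff η g) : Set (Ed d)) u a) :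
    ∃ u' ∈ R, conn (↑η : Set (Ed d)) u' a := by
  induction h with
  | refl => exact ⟨u, hu, conn_refl _ _⟩
  | tail _ hab ih =>
    obtain ⟨u', hu', h1⟩ := ih
    obtain ⟨i, hi⟩ := hab
    rename_i b c _
    rcases hi with ⟨h2, h3⟩ | ⟨h2, h3⟩
    · rcases Finset.mem_symmDiff.mp (by exact_mod_cast h2) with ⟨h4, _⟩ | ⟨h4, _⟩
      · exact ⟨u', hu', conn_trans h1 (Relation.ReflTransGen.single
          ⟨i, Or.inl ⟨by exact_mod_cast h4, h3⟩⟩)⟩
      · have := (hgR _ h4).2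
        have h5 : tip (b, i) = c := h3.symm
        rw [h5] at this
        exact ⟨c, this, conn_refl _ _⟩
    · rcases Finset.mem_symmDiff.mp (by exact_mod_cast h2) with ⟨h4, _⟩ | ⟨h4, _⟩
      · exact ⟨u', hu', conn_trans h1 (Relation.ReflTransGen.single
          ⟨i, Or.inr ⟨by exact_mod_cast h4, h3⟩⟩)⟩
      · exact ⟨c, (hgR _ h4).1, conn_refl _ _⟩

theorem NR_step {R : Set (Vx d)} {η g : Finset (Ed d)} (hgR : ∀ e ∈ g, e.1 ∈ R ∧ tip e ∈ R)
    {e : Ed d} (he : e ∈ η) (hn : e ∉ NR R η) :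
    e ∈ symmDiff η g ∧ e ∉ NR R (symmDiff η g) ∧ e ∉ g := by
  have h0 : ¬ ∃ u ∈ R, conn (↑η : Set (Ed d)) u e.1 := fun h => hn ((mem_fl _ _ _).mpr ⟨he, h⟩)
  have h1 : e ∉ g := fun h => h0 ⟨e.1, (hgR e h).1, conn_refl _ _⟩
  refine ⟨Finset.mem_symmDiff.mpr (Or.inl ⟨he, h1⟩), fun h => ?_, h1⟩
  obtain ⟨_, u, hu, h2⟩ := (mem_fl _ _ _).mp h
  exact h0 (conn_R hgR hu h2)

theorem NR_symmDiff {R : Set (Vx d)} {η g : Finset (Ed d)}
    (hgR : ∀ e ∈ g, e.1 ∈ R ∧ tip e ∈ R) :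
    symmDiff (NR R η) (NR R (symmDiff η g)) = g := by
  have hback : symmDiff (symmDiff η g) g = η := symmDiff_symmDiff_cancel_right g η
  have hin : ∀ ζ : Finset (Ed d), ∀ e ∈ g, e ∈ ζ → e ∈ NR R ζ := fun ζ e hg hz =>
    (mem_fl _ _ _).mpr ⟨hz, e.1, (hgR e hg).1, conn_refl _ _⟩
  have hsub : ∀ ζ : Finset (Ed d), NR R ζ ⊆ ζ := fun ζ => fl_subset _ _
  ext e
  by_cases hg : e ∈ g
  · refine iff_of_true ?_ hg
    rw [Finset.mem_symmDiff]
    by_cases he : e ∈ η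
    · refine Or.inl ⟨hin η e hg he, fun h => ?_⟩
      have := hsub _ h
      rcases Finset.mem_symmDiff.mp this with ⟨_, h4⟩ | ⟨_, h4⟩
      · exact h4 hg
      · exact h4 he
    · exact Or.inr ⟨hin _ e hg (Finset.mem_symmDiff.mpr (Or.inr ⟨hg, he⟩)), fun h => he (hsub _ h)⟩
  · refine iff_of_false ?_ hg
    rw [Finset.mem_symmDiff]
    rintro (⟨h1, h2⟩ | ⟨h1, h2⟩)
    · have h3 : e ∈ symmDiff η g := Finset.mem_symmDiff.mpr (Or.inl ⟨hsub _ h1, hg⟩)
      have h4 := NR_step (η := symmDiff η g) hgR h3 h2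
      rw [hback] at h4
      exact h4.2.1 h1
    · have h3 : e ∈ η := by
        rcases Finset.mem_symmDiff.mp (hsub _ h1) with ⟨h4, _⟩ | ⟨h4, _⟩
        · exact h4
        · exact absurd h4 hg
      exact (NR_step hgR h3 h2).2.1 h1

theorem sum_symmDiff (f : Ed d → ZMod 2) (p q : Finset (Ed d)) :
    ∑ e ∈ symmDiff p q, f e = ∑ e ∈ p, f e + ∑ e ∈ q, f e := by
  classical
  have e1 : symmDiff p q = (p \ q) ∪ (q \ p) := rfl
  have d3 : Disjoint (p \ q) (q \ p) := disjoint_sdiff_sdiff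
  rw [e1, Finset.sum_union d3]
  have h1 := Finset.sum_sdiff (f := f) (Finset.inter_subset_left (s₁ := p) (s₂ := q))
  have h2 := Finset.sum_sdiff (f := f) (Finset.inter_subset_right (s₁ := p) (s₂ := q))
  rw [Finset.sdiff_inter_self_left] at h1
  rw [Finset.sdiff_inter_self_right] at h2
  rw [← h1, ← h2]
  have := z2 (∑ e ∈ p ∩ q, f e)
  linear_combination (-1 : ZMod 2) * this

theorem bd_symmDiff (p q : Finset (Ed d)) : bd (symmDiff p q) = bd p + bd q := by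
  funext v
  have h1 : ∀ r : Finset (Ed d), bd r v = ∑ e ∈ r, bde e v := by
    intro r
    unfold bd
    rw [Finset.sum_apply]
  rw [Pi.add_apply, h1, h1, h1]
  exact sum_symmDiff _ _ _

/-- **Ring lemma, deterministic.** -/
theorem ring_det {m : ℤ} {o : Vx d} {i0 i1 : Fin d} {R : Set (Vx d)}
    (hR : ∀ u ∈ R, m ≤ |u i0 - o i0| ∨ m ≤ |u i1 - o i1|) {η g : Finset (Ed d)}
    (hg : bd g = 0) (hgR : ∀ e ∈ g, e.1 ∈ R ∧ tip e ∈ R)
    (hA : ∀ u ∈ R, ∀ v, (∀ i, |v i - u i| < m) → bd η v = 0)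
    (hχ : ∑ e ∈ g, chi o i0 i1 e = 1) :
    (∃ u ∈ R, FarP m (↑η : Set (Ed d)) u) ∨
      ∃ u ∈ R, FarP m (↑(symmDiff η g) : Set (Ed d)) u := by
  by_contra hcon
  rw [not_or] at hcon
  obtain ⟨h1, h2⟩ := hcon
  have a1 := chi_NR hR h1 hA
  have hb : bd (symmDiff η g) = bd η := by rw [bd_symmDiff, hg, add_zero]
  have a2 := chi_NR hR h2 (fun u hu v hv => by rw [hb]; exact hA u hu v hv)
  have a3 := sum_symmDiff (chi o i0 i1) (NR R η) (NR R (symmDiff η g))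
  rw [NR_symmDiff hgR, a1, a2, hχ, add_zero] at a3
  exact one_ne_zero a3

end Pool.Agent.Rng
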