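import Pool.Agent.Rng.Arm
import Pool.Agent.Inv.Final

/-!
# Polynomial lower bound for the one arm probability (helper60)
-/

set_option autoImplicit false

namespace Pool.Agent.Rng

open Finset Filter
open Pool.Agent.SRC
open Pool.Agent.FK1
open Pool.Agent.Glu (cube mem_cube card_cube)

variable {d : ℕ}

theorem far_ge_PE {x s : ℝ} (hx : 0 ≤ x) (hs : 0 ≤ s) (hs1 : s ≤ 1) (E : Finset (Ed d)) (n : ℕ)
    (u : Vx d) :
    EL (loopM x) E 0 (fun η => ind (FarP (n : ℤ) (↑η : Set (Ed d)) u)) ≤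
      Inv.PE x s E (Inv.far n u) * ZZ (loopM x) E 0 := by
  classical
  have pE : 0 < ZZ (loopM x) E (0 : Vx d → ZMod 2) := Rm.ZZ_zero_pos hx E
  unfold Inv.PE
  rw [div_mul_cancel₀ _ pE.ne']
  refine EL_mono (loopM x) hx zero_le_one _ _ _ _ fun η _ => ?_
  rw [← EB_const s E (ind (FarP (n : ℤ) (↑η : Set (Ed d)) u))]
  refine EB_mono s hs hs1 E _ _ fun b _ => ?_
  refine ind_mono ?_
  rintro ⟨v, h1, h2⟩
  refine ⟨v, conn_mono ?_ h1, h2⟩
  exact Finset.coe_subset.mpr Finset.subset_union_left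

/-- lower bound for every `s` -/
theorem th_ge (hd : 2 ≤ d) {β c : ℝ} (hβ : 0 < β) (hc : 0 < c)
    (hC : ∀ (a : Vx d) (n : ℕ), 1 ≤ n → ∀ x ∈ Slb.bo a (fun _ => n), ∀ y ∈ Slb.bo a (fun _ => n),
      c ≤ TC.cf (Slb.bo a (fun _ => n)) β x y) {s : ℝ} (hs : 0 ≤ s) (hs1 : s ≤ 1) (n : ℕ)
    (hn : 1 ≤ n) :
    c ^ 4 / (8 * 4 ^ d) / (n : ℝ) ^ d ≤ Inv.th d (Real.tanh β) s n := by
  classical
  have hx0 : 0 < Real.tanh β := tanh_pos hβ
  have hx1 : Real.tanh β < 1 := tanh_lt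
  set x := Real.tanh β with hx
  let i0 : Fin d := ⟨0, by omega⟩
  let i1 : Fin d := ⟨1, by omega⟩
  have hi : i0 ≠ i1 := by
    intro h
    have := congrArg Fin.val h
    simp [i0, i1] at this
  have h1 : ∀ N : ℕ, 4 * n ≤ N → c ^ 4 / 2 ≤
      ∑ u ∈ RF (0 : Vx d) i0 i1 (n : ℤ), Inv.PE x s (boxE d N) (Inv.far n u) := by
    intro N hN
    have pE : 0 < ZZ (loopM x) (boxE d N) (0 : Vx d → ZMod 2) := Rm.ZZ_zero_pos hx0.le _
    have hE4 : edg (cube (0 : Vx d) (4 * (n : ℤ))) ⊆ boxE d N := by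
      unfold boxE bx
      refine edg_mono fun v hv => ?_
      rw [mem_cube] at hv
      rw [Finset.mem_Icc, Pi.le_def, Pi.le_def]
      refine ⟨fun i => ?_, fun i => ?_⟩
      · have h := hv i
        rw [Pi.zero_apply, sub_zero, abs_le] at h
        omega
      · have h := hv i
        rw [Pi.zero_apply, sub_zero, abs_le] at h
        omega
    have h2 := ring_sum hx0 hx1 hi (m := (n : ℤ)) (by omega) (E := boxE d N) hc.le hE4
      (hc_of_CUBE hβ.le hC 0 i0 i1 n) 0 (fun _ _ _ _ => rfl)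
    refine le_of_mul_le_mul_right ?_ pE
    refine h2.trans ?_
    rw [Finset.sum_mul]
    exact Finset.sum_le_sum fun u _ => far_ge_PE hx0.le hs hs1 _ n u
  have h3 : Tendsto (fun N => ∑ u ∈ RF (0 : Vx d) i0 i1 (n : ℤ),
      Inv.PE x s (boxE d N) (Inv.far n u)) atTop
      (nhds (∑ _u ∈ RF (0 : Vx d) i0 i1 (n : ℤ), Inv.th d x s n)) :=
    tendsto_finsetSum _ fun u _ => Inv.far_tend (by omega) x hx0.le hx1.le s n u
  have h4 : c ^ 4 / 2 ≤ ∑ _u ∈ RF (0 : Vx d) i0 i1 (n : ℤ), Inv.th d x s n :=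
    ge_of_tendsto h3 (eventually_atTop.mpr ⟨4 * n, h1⟩)
  rw [Finset.sum_const, nsmul_eq_mul] at h4
  have h8 : ((RF (0 : Vx d) i0 i1 (n : ℤ)).card : ℝ) ≤ 4 * (4 * n) ^ d := by
    have h9 : (RF (0 : Vx d) i0 i1 (n : ℤ)).card ≤ 4 * (4 * n) ^ d := by
      refine (card_RF _ _ _ n).trans ?_
      exact Nat.mul_le_mul_left 4 (Nat.pow_le_pow_left (by omega) d)
    exact_mod_cast h9
  have h5 : 0 ≤ Inv.th d x s n := Inv.th_nonneg x hx0.le hx1.le s hs hs1 n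
  have h6 : c ^ 4 / 2 ≤ (4 * (4 * (n : ℝ)) ^ d) * Inv.th d x s n :=
    h4.trans (mul_le_mul_of_nonneg_right h8 h5)
  have hnd : (0 : ℝ) < (n : ℝ) ^ d := pow_pos (by exact_mod_cast hn) d
  rw [div_div, div_le_iff₀ (by positivity)]
  rw [mul_pow] at h6
  calc c ^ 4 = 2 * (c ^ 4 / 2) := by ring
    _ ≤ 2 * ((4 * (4 ^ d * (n : ℝ) ^ d)) * Inv.th d x s n) := by linarith
    _ = Inv.th d x s n * (8 * 4 ^ d * (n : ℝ) ^ d) := by ring

/-- **(LOW)** -/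
theorem low (hd : 2 ≤ d) {β : ℝ} (hβ : 0 < β) (hC : Slb.CUBE d β) :
    Inv.LOW d (Real.tanh β) := by
  obtain ⟨c, hc, hcf⟩ := hC
  refine ⟨c ^ 4 / (8 * 4 ^ d), d, by positivity, fun n hn => ?_⟩
  have h := th_ge hd hβ hc hcf (le_refl (0 : ℝ)) zero_le_one n hn
  rw [Real.rpow_neg (Nat.cast_nonneg n), Real.rpow_natCast]
  rw [div_eq_mul_inv] at h
  exact h

end Pool.Agent.Rng
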