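import Pool.Agent.Rng.Sq
import Pool.Agent.FK1.Dom

/-!
# Ring lemma, probabilistic part (helper60)
-/

set_option autoImplicit false

namespace Pool.Agent.Rng

open Finset
open Pool.Agent.SRC
open Pool.Agent.FK1

section general

variable {ε G : Type*} [DecidableEq ε] [AddCommGroup G] {δ : ε → G}

/-- the pair `(η, η ∪ Ber(x))`: given the union, `η` is uniform -/
theorem joint (x : ε → ℝ) (E : Finset ε) (a : Finset ε → ℝ) (F : Finset ε → Finset ε → ℝ) :
    ∑ η ∈ E.powerset, a η * (∏ e ∈ η, x e) * ∑ b ∈ E.powerset, wB x E b * F η (η ∪ b) =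
      ∑ ω ∈ E.powerset, wB x E ω * ∑ η ∈ ω.powerset, a η * F η ω := by
  classical
  have h1 : ∑ η ∈ E.powerset, a η * (∏ e ∈ η, x e) * ∑ b ∈ E.powerset, wB x E b * F η (η ∪ b) =
      ∑ η ∈ E.powerset, ∑ ω ∈ E.powerset,
        if η ⊆ ω then a η * (wB x E ω * F η ω) else 0 := by
    refine Finset.sum_congr rfl fun η hη => ?_
    rw [Finset.mem_powerset] at hη
    rw [sum_wB_union x hη (F η), ← Finset.sum_filter, mul_assoc, Finset.mul_sum, Finset.mul_sum,
      ← sum_powerset_sdiff E η hη fun ω => a η * (wB x E ω * F η ω)]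
    refine Finset.sum_congr rfl fun c hc => ?_
    rw [Finset.mem_powerset] at hc
    rw [← prod_wB x hη hc]
    ring
  rw [h1, Finset.sum_comm]
  refine Finset.sum_congr rfl fun ω hω => ?_
  rw [Finset.mem_powerset] at hω
  rw [← Finset.sum_filter]
  have h4 : E.powerset.filter (fun η => η ⊆ ω) = ω.powerset := by
    ext η
    rw [Finset.mem_filter, Finset.mem_powerset, Finset.mem_powerset]
    exact ⟨fun h => h.2, fun h => ⟨h.trans hω, h⟩⟩
  rw [h4, Finset.mul_sum]
  refine Finset.sum_congr rfl fun η _ => ?_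
  ring

/-- the lattice condition for FK on `T` against FK on `E ⊇ T` -/
theorem wF_lat_sub (h2 : ∀ g : G, g + g = 0) {x : ε → ℝ} {T E : Finset ε} (hT : T ⊆ E)
    (hx0 : ∀ e ∈ E, 0 < x e) (hx1 : ∀ e ∈ E, x e < 1) :
    ∀ a, a ⊆ T → ∀ b, b ⊆ E → wF δ x T a * wF δ x E b ≤ wF δ x T (a ∩ b) * wF δ x E (a ∪ b) := by
  have hT0 : ∀ e ∈ T, 0 < x e := fun e he => hx0 e (hT he)
  have hT1 : ∀ e ∈ T, x e < 1 := fun e he => hx1 e (hT he)
  have key : ∀ u : Finset ε, ∀ c t : Finset ε, c ⊆ t → c ⊆ T → t ⊆ E → u ⊆ T → Disjoint u t →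
      wF δ x T (c ∪ u) * wF δ x E t ≤ wF δ x T c * wF δ x E (t ∪ u) := by
    intro u
    induction u using Finset.induction_on with
    | empty =>
      intro c t _ _ _ _ _
      rw [Finset.union_empty, Finset.union_empty]
    | insert e u heu ih =>
      intro c t hc hcT ht hu hd
      have hu' : u ⊆ T := (Finset.subset_insert e u).trans hu
      have heT : e ∈ T := hu (Finset.mem_insert_self e u)
      have heE : e ∈ E := hT heT
      have hdt : Disjoint u t := Finset.disjoint_of_subset_left (Finset.subset_insert e u) hd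
      have het : e ∉ t := Finset.disjoint_left.mp hd (Finset.mem_insert_self e u)
      have h1 := ih c t hc hcT ht hu' hdt
      have hD : t ∪ u ⊆ E := Finset.union_subset ht (hu'.trans hT)
      have hCT : c ∪ u ⊆ T := Finset.union_subset hcT hu'
      have hC : c ∪ u ⊆ t ∪ u := Finset.union_subset_union hc (le_refl u)
      have hetu : e ∉ t ∪ u := by
        rw [Finset.mem_union]
        exact fun h3 => h3.elim het heu
      have hecu : e ∉ c ∪ u := fun h => hetu (hC h)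
      have e1 : c ∪ insert e u = insert e (c ∪ u) := Finset.union_insert e c u
      have e2 : t ∪ insert e u = insert e (t ∪ u) := Finset.union_insert e t u
      rw [e1, e2]
      have a1 := wF_insert (δ := δ) h2 (x := x) heT hecu
      have a2 := wF_insert (δ := δ) h2 (x := x) heE hetu
      have p1 : 0 < 1 - x e := sub_pos.mpr (hx1 e heE)
      have px : 0 < x e := hx0 e heE
      have hi : ind (FF δ (δ e) (c ∪ u)) ≤ ind (FF δ (δ e) (t ∪ u)) := ind_mono fun h => h.mono hC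
      have hi0 := ind_nonneg (FF δ (δ e) (c ∪ u))
      have wc : 0 ≤ wF δ x T c := (wF_pos hT0 hT1 hcT).le
      have wt : 0 ≤ wF δ x E t := (wF_pos hx0 hx1 ht).le
      have wtu : 0 ≤ wF δ x E (t ∪ u) := (wF_pos hx0 hx1 hD).le
      refine le_of_mul_le_mul_left (a := 1 - x e) ?_ p1
      calc (1 - x e) * (wF δ x T (insert e (c ∪ u)) * wF δ x E t)
          = ((1 - x e) * wF δ x T (insert e (c ∪ u))) * wF δ x E t := by ring
        _ = (x e * (1 + ind (FF δ (δ e) (c ∪ u)))) * (wF δ x T (c ∪ u) * wF δ x E t) := by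
            rw [a1]; ring
        _ ≤ (x e * (1 + ind (FF δ (δ e) (t ∪ u)))) * (wF δ x T c * wF δ x E (t ∪ u)) := by
            refine mul_le_mul ?_ h1 (mul_nonneg (wF_pos hT0 hT1 hCT).le wt)
              (mul_nonneg px.le (by linarith))
            exact mul_le_mul_of_nonneg_left (by linarith) px.le
        _ = wF δ x T c * (x e * (1 + ind (FF δ (δ e) (t ∪ u))) * wF δ x E (t ∪ u)) := by ring
        _ = (1 - x e) * (wF δ x T c * wF δ x E (insert e (t ∪ u))) := by rw [← a2]; ring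
  intro a ha b hb
  have h1 := key (a \ b) (a ∩ b) b Finset.inter_subset_right (Finset.inter_subset_left.trans ha) hb
    (Finset.sdiff_subset.trans ha) Finset.sdiff_disjoint
  have e1 : a ∩ b ∪ a \ b = a := by
    rw [Finset.union_comm]
    exact Finset.sdiff_union_inter a b
  have e2 : b ∪ a \ b = a ∪ b := by
    rw [Finset.union_sdiff_self_eq_union, Finset.union_comm]
  rwa [e1, e2] at h1

/-- FK on `E` restricted to `T` dominates FK on `T` -/
theorem wF_restrict (h2 : ∀ g : G, g + g = 0) {x : ε → ℝ} {T E : Finset ε} (hT : T ⊆ E)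
    (hx0 : ∀ e ∈ E, 0 < x e) (hx1 : ∀ e ∈ E, x e < 1) {f : Finset ε → ℝ} (hf : Inc T f) :
    (∑ ω ∈ T.powerset, wF δ x T ω * f ω) * ∑ ω ∈ E.powerset, wF δ x E ω ≤
      (∑ ω ∈ T.powerset, wF δ x T ω) * ∑ ω ∈ E.powerset, wF δ x E ω * f (ω ∩ T) := by
  classical
  have hT0 : ∀ e ∈ T, 0 < x e := fun e he => hx0 e (hT he)
  have hT1 : ∀ e ∈ T, x e < 1 := fun e he => hx1 e (hT he)
  let p : Finset ε → ℝ := fun ω => if ω ⊆ T then wF δ x T ω else 0
  have hp : ∀ s, s ⊆ E → 0 ≤ p s := by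
    intro s _
    simp only [p]
    split_ifs with h
    · exact (wF_pos hT0 hT1 h).le
    · exact le_refl 0
  have hsd : SD E p (wF δ x E) := by
    refine SD_of_lat hp (fun s hs => (wF_pos hx0 hx1 hs).le) fun a _ b hb => ?_
    simp only [p]
    split_ifs with h h3
    · exact wF_lat_sub h2 hT hx0 hx1 a h b hb
    · exact absurd (Finset.inter_subset_left.trans h) h3
    · rw [zero_mul]
      exact mul_nonneg (wF_pos hT0 hT1 (by assumption)).le
        (wF_pos hx0 hx1 (Finset.union_subset (by assumption) hb)).le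
    · rw [zero_mul, zero_mul]
  have hf' : Inc E fun ω => f (ω ∩ T) :=
    ⟨fun s _ => hf.1 _ Finset.inter_subset_right, fun s t hst _ =>
      hf.2 _ _ (Finset.inter_subset_inter hst (le_refl T)) Finset.inter_subset_right⟩
  have h := hsd _ hf'
  have hsum : ∀ F : Finset ε → ℝ, ∑ s ∈ E.powerset, p s * F s =
      ∑ s ∈ T.powerset, wF δ x T s * F s := by
    intro F
    have h3 : T.powerset ⊆ E.powerset := Finset.powerset_mono.mpr hT
    rw [← Finset.sum_subset h3]
    · refine Finset.sum_congr rfl fun s hs => ?_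
      simp only [p]
      rw [if_pos (Finset.mem_powerset.mp hs)]
    · intro s _ hs
      simp only [p]
      rw [if_neg (fun h4 => hs (Finset.mem_powerset.mpr h4)), zero_mul]
  have h1 := hsum fun _ => 1
  simp only [mul_one] at h1
  rw [hsum, h1] at h
  refine le_trans (le_of_eq ?_) h
  congr 1
  refine Finset.sum_congr rfl fun s hs => ?_
  rw [Finset.inter_eq_left.mpr (Finset.mem_powerset.mp hs)]

/-- two increasing events, normalised form of FKG -/
theorem fkg_mul (h2 : ∀ g : G, g + g = 0) {x : ε → ℝ} {E : Finset ε} (hx0 : ∀ e ∈ E, 0 < x e)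
    (hx1 : ∀ e ∈ E, x e < 1) {f g : Finset ε → ℝ} (hf : Inc E f) (hg : Inc E g) {a b : ℝ}
    (hb : 0 ≤ b) (hfa : a * (∑ ω ∈ E.powerset, wF δ x E ω) ≤ ∑ ω ∈ E.powerset, wF δ x E ω * f ω)
    (hgb : b * (∑ ω ∈ E.powerset, wF δ x E ω) ≤ ∑ ω ∈ E.powerset, wF δ x E ω * g ω) :
    (a * b) * (∑ ω ∈ E.powerset, wF δ x E ω) ≤
      ∑ ω ∈ E.powerset, wF δ x E ω * (f ω * g ω) := by
  have h := wF_fkg (δ := δ) h2 hx0 hx1 hf hg
  have pS : 0 < ∑ ω ∈ E.powerset, wF δ x E ω := sum_wF_pos hx0 hx1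
  have hf0 : 0 ≤ ∑ ω ∈ E.powerset, wF δ x E ω * f ω :=
    Finset.sum_nonneg fun ω hω => mul_nonneg (wF_pos hx0 hx1 (Finset.mem_powerset.mp hω)).le
      (hf.1 ω (Finset.mem_powerset.mp hω))
  refine le_of_mul_le_mul_left (a := ∑ ω ∈ E.powerset, wF δ x E ω) ?_ pS
  refine le_trans ?_ h
  have h3 := mul_le_mul hfa hgb (mul_nonneg hb pS.le) hf0
  refine le_trans (le_of_eq ?_) h3
  ring

end general

/-- the loop O(1) expectation of a function of `η` with constant weight `x` -/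
noncomputable def LE {d : ℕ} (x : ℝ) (E : Finset (Ed d)) (A : Vx d → ZMod 2)
    (f : Finset (Ed d) → ℝ) : ℝ :=
  ∑ η ∈ E.powerset, ind (bd η = A) * (∏ _e ∈ η, x) * f η

theorem hG2 {d : ℕ} : ∀ g : Vx d → ZMod 2, g + g = 0 := fun g => by
  funext v
  exact z2 (g v)

theorem Inc_FF_inter {d : ℕ} (E T : Finset (Ed d)) (B : Vx d → ZMod 2) :
    Inc E fun ω => ind (FF bde B (ω ∩ T)) :=
  ⟨fun _ _ => ind_nonneg _, fun _ _ h _ => ind_mono fun h' =>
    h'.mono (Finset.inter_subset_inter h (le_refl T))⟩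

theorem Inc_mul {ε : Type*} [DecidableEq ε] {E : Finset ε} {f g : Finset ε → ℝ} (hf : Inc E f)
    (hg : Inc E g) : Inc E fun ω => f ω * g ω :=
  ⟨fun s hs => mul_nonneg (hf.1 s hs) (hg.1 s hs), fun s t hst ht =>
    mul_le_mul (hf.2 s t hst ht) (hg.2 s t hst ht) (hg.1 s (hst.trans ht)) (hf.1 t ht)⟩

/-- one path of the ring -/
theorem one_path {d : ℕ} {x : ℝ} (hx0 : 0 < x) (hx1 : x < 1) {T E : Finset (Ed d)} (hT : T ⊆ E)
    {B : Vx d → ZMod 2} {c : ℝ}
    (hc : c * ZA bde (fun _ => x) T 0 ≤ ZA bde (fun _ => x) T B) :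
    c * (∑ ω ∈ E.powerset, wF bde (fun _ => x) E ω) ≤
      ∑ ω ∈ E.powerset, wF bde (fun _ => x) E ω * ind (FF bde B (ω ∩ T)) := by
  have h := wF_restrict (δ := bde) (x := fun _ => x) hG2 hT (fun _ _ => hx0) (fun _ _ => hx1)
    (f := fun ω => ind (FF bde B ω)) (Inc_FF (δ := bde) T B)
  rw [ZA_eq hG2, ZA_eq hG2] at hc
  have h0 : ∑ ω ∈ T.powerset, wF bde (fun _ => x) T ω * ind (FF bde 0 ω) =
      ∑ ω ∈ T.powerset, wF bde (fun _ => x) T ω := by
    refine Finset.sum_congr rfl fun ω _ => ?_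
    rw [ind_true (FF.zero ω), mul_one]
  rw [h0] at hc
  have pT : 0 < ∑ ω ∈ T.powerset, wF bde (fun _ => x) T ω :=
    sum_wF_pos (fun _ _ => hx0) (fun _ _ => hx1)
  have pE : 0 < ∑ ω ∈ E.powerset, wF bde (fun _ => x) E ω :=
    sum_wF_pos (fun _ _ => hx0) (fun _ _ => hx1)
  refine le_of_mul_le_mul_left (a := ∑ ω ∈ T.powerset, wF bde (fun _ => x) T ω) ?_ pT
  refine le_trans ?_ h
  refine le_trans (le_of_eq ?_) (mul_le_mul_of_nonneg_right hc pE.le)
  ring

/-- the ring is open in `η^A ∪ Ber(x)` with probability at least `c ^ 4`, for every `A` -/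
theorem ring_open {d : ℕ} {x : ℝ} (hx0 : 0 < x) (hx1 : x < 1) {o : Vx d} {i0 i1 : Fin d} {m : ℤ}
    {E : Finset (Ed d)} {c : ℝ} (hc0 : 0 ≤ c)
    (hT1 : edg (Tq o i0 i1 m m (-m)) ⊆ E) (hT2 : edg (Tq o i0 i1 m (-2 * m) m) ⊆ E)
    (hT3 : edg (Tq o i0 i1 m (-4 * m) (-2 * m)) ⊆ E) (hT4 : edg (Tq o i0 i1 m (-m) (-4 * m)) ⊆ E)
    (hc : ∀ a b : ℤ, ∀ u ∈ Tq o i0 i1 m a b, ∀ v ∈ Tq o i0 i1 m a b,
      c * ZA bde (fun _ => x) (edg (Tq o i0 i1 m a b)) 0 ≤
        ZA bde (fun _ => x) (edg (Tq o i0 i1 m a b)) (pt u v)) (hm : 0 ≤ m)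
    (A : Vx d → ZMod 2) :
    c ^ 4 * ZA bde (fun _ => x) E A ≤
      YS bde (fun _ => x) (fun _ => x) E A fun ω => ind (RgE o i0 i1 m ω) := by
  have hx0' : ∀ e ∈ E, (0 : ℝ) < (fun _ : Ed d => x) e := fun _ _ => hx0
  have hx1' : ∀ e ∈ E, (fun _ : Ed d => x) e < 1 := fun _ _ => hx1
  have q1 := one_path hx0 hx1 hT1 (hc _ _ _ (cq_mem_Tq (p := m) (q := -m) hm (by omega) (by omega)
    (by omega) (by omega)) _ (cq_mem_Tq (p := m) (q := m) hm (by omega) (by omega)
    (by omega) (by omega)))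
  have q2 := one_path hx0 hx1 hT2 (hc _ _ _ (cq_mem_Tq (p := m) (q := m) hm (by omega) (by omega)
    (by omega) (by omega)) _ (cq_mem_Tq (p := -m) (q := m) hm (by omega) (by omega)
    (by omega) (by omega)))
  have q3 := one_path hx0 hx1 hT3 (hc _ _ _ (cq_mem_Tq (p := -m) (q := m) hm (by omega) (by omega)
    (by omega) (by omega)) _ (cq_mem_Tq (p := -m) (q := -m) hm (by omega) (by omega)
    (by omega) (by omega)))
  have q4 := one_path hx0 hx1 hT4 (hc _ _ _ (cq_mem_Tq (p := -m) (q := -m) hm (by omega)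
    (by omega) (by omega) (by omega)) _ (cq_mem_Tq (p := m) (q := -m) hm (by omega) (by omega)
    (by omega) (by omega)))
  have r1 := fkg_mul (δ := bde) hG2 hx0' hx1' (Inc_FF_inter E _ _) (Inc_FF_inter E _ _) hc0 q1 q2
  have r2 := fkg_mul (δ := bde) hG2 hx0' hx1' (Inc_FF_inter E _ _) (Inc_FF_inter E _ _) hc0 q3 q4
  have r3 := fkg_mul (δ := bde) hG2 hx0' hx1'
    (Inc_mul (Inc_FF_inter E _ _) (Inc_FF_inter E _ _))
    (Inc_mul (Inc_FF_inter E _ _) (Inc_FF_inter E _ _)) (mul_nonneg hc0 hc0) r1 r2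
  set f : Finset (Ed d) → ℝ := fun ω => ind (RgE o i0 i1 m ω) with hf
  have hfe : ∀ ω, f ω = _ := fun ω => by
    show ind (RgE o i0 i1 m ω) = _
    unfold RgE
    rw [ind_and, ind_and, ind_and]
  have hInc : Inc E f := by
    have := Inc_mul (Inc_mul (Inc_FF_inter E (edg (Tq o i0 i1 m m (-m)))
        (pt (cq o i0 i1 m (-m)) (cq o i0 i1 m m)))
      (Inc_FF_inter E (edg (Tq o i0 i1 m (-2 * m) m)) (pt (cq o i0 i1 m m) (cq o i0 i1 (-m) m))))
      (Inc_mul (Inc_FF_inter E (edg (Tq o i0 i1 m (-4 * m) (-2 * m)))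
        (pt (cq o i0 i1 (-m) m) (cq o i0 i1 (-m) (-m))))
      (Inc_FF_inter E (edg (Tq o i0 i1 m (-m) (-4 * m)))
        (pt (cq o i0 i1 (-m) (-m)) (cq o i0 i1 m (-m)))))
    have he : f = fun ω => _ := funext hfe
    rw [he]
    exact this
  have r4 : c ^ 4 * (∑ ω ∈ E.powerset, wF bde (fun _ => x) E ω) ≤
      ∑ ω ∈ E.powerset, wF bde (fun _ => x) E ω * f ω := by
    refine le_trans (le_of_eq ?_) (r3.trans (le_of_eq ?_))
    · ring
    · refine Finset.sum_congr rfl fun ω _ => ?_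
      rw [hfe]
  have hpar : Par (fun _ : Ed d => x) (fun _ => x) (fun _ => x) E :=
    ⟨hx0', hx1', hx0', hx1', hx0', fun _ _ => le_refl _, fun _ _ => by
      show x / (1 - x) * (1 + 2 * (1 - x / x) * (x / (1 - x))) ≤ x / x * (x / (1 - x))
      rw [div_self hx0.ne', sub_self, mul_zero, zero_mul, add_zero, mul_one, one_mul]⟩
  have r5 := YS_dom (δ := bde) hG2 hpar A hInc
  have pE : 0 < ∑ ω ∈ E.powerset, wF bde (fun _ => x) E ω := sum_wF_pos hx0' hx1'
  have pA : 0 ≤ ZA bde (fun _ => x) E A := Finset.sum_nonneg fun η _ =>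
    mul_nonneg (ind_nonneg _) (Finset.prod_nonneg fun _ _ => hx0.le)
  refine le_of_mul_le_mul_left (a := ∑ ω ∈ E.powerset, wF bde (fun _ => x) E ω) ?_ pE
  refine le_trans ?_ r5
  refine le_trans (le_of_eq ?_) (mul_le_mul_of_nonneg_right r4 pA)
  ring

/-- **Ring lemma.** For every edge set `E` containing the ring and every source set `A` away from the
ring, a cluster of `η^A` of radius `m` meets the ring with probability at least `c ^ 4 / 2`. -/
theorem ring {d : ℕ} {x : ℝ} (hx0 : 0 < x) (hx1 : x < 1) {o : Vx d} {i0 i1 : Fin d}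
    (hi : i0 ≠ i1) {m : ℤ} (hm : 1 ≤ m) {E : Finset (Ed d)} {c : ℝ} (hc0 : 0 ≤ c)
    (hT1 : edg (Tq o i0 i1 m m (-m)) ⊆ E) (hT2 : edg (Tq o i0 i1 m (-2 * m) m) ⊆ E)
    (hT3 : edg (Tq o i0 i1 m (-4 * m) (-2 * m)) ⊆ E) (hT4 : edg (Tq o i0 i1 m (-m) (-4 * m)) ⊆ E)
    (hc : ∀ a b : ℤ, ∀ u ∈ Tq o i0 i1 m a b, ∀ v ∈ Tq o i0 i1 m a b,
      c * ZA bde (fun _ => x) (edg (Tq o i0 i1 m a b)) 0 ≤
        ZA bde (fun _ => x) (edg (Tq o i0 i1 m a b)) (pt u v))
    (A : Vx d → ZMod 2)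
    (hA : ∀ u ∈ RR o i0 i1 m, ∀ v, (∀ i, |v i - u i| < m) → A v = 0) :
    c ^ 4 / 2 * ZA bde (fun _ => x) E A ≤
      LE x E A fun η => ind (∃ u ∈ RR o i0 i1 m, FarP m (↑η : Set (Ed d)) u) := by
  classical
  have h1 := ring_open hx0 hx1 hc0 hT1 hT2 hT3 hT4 hc (by omega : (0 : ℤ) ≤ m) A
  have h2 := joint (fun _ : Ed d => x) E (fun η => ind (bd η = A))
    (fun _ ω => ind (RgE o i0 i1 m ω))
  have h3 : YS bde (fun _ => x) (fun _ => x) E A (fun ω => ind (RgE o i0 i1 m ω)) =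
      ∑ ω ∈ E.powerset, wB (fun _ => x) E ω *
        ∑ η ∈ ω.powerset, ind (bd η = A) * ind (RgE o i0 i1 m ω) := h2
  set B : Finset (Ed d) → ℝ := fun η => ind (∃ u ∈ RR o i0 i1 m, FarP m (↑η : Set (Ed d)) u)
    with hB
  have h4 := joint (fun _ : Ed d => x) E (fun η => ind (bd η = A)) (fun η _ => B η)
  have h5 : LE x E A B = ∑ ω ∈ E.powerset, wB (fun _ => x) E ω *
        ∑ η ∈ ω.powerset, ind (bd η = A) * B η := by
    rw [← h4]
    unfold LE
    refine Finset.sum_congr rfl fun η _ => ?_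
    rw [← Finset.sum_mul, sum_wB, one_mul]
  have h6 : ∀ ω, ω ⊆ E → ∑ η ∈ ω.powerset, ind (bd η = A) * ind (RgE o i0 i1 m ω) ≤
      2 * ∑ η ∈ ω.powerset, ind (bd η = A) * B η := by
    intro ω _
    by_cases hr : RgE o i0 i1 m ω
    · obtain ⟨g, hgω, hg0, hgR, hgχ⟩ := ring_g hi hm hr
      have hsub : ∀ η, η ⊆ ω → symmDiff η g ⊆ ω := fun η hη =>
        Finset.union_subset (Finset.sdiff_subset.trans hη) (Finset.sdiff_subset.trans hgω)
      have hre : ∑ η ∈ ω.powerset, ind (bd η = A) * B η =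
          ∑ η ∈ ω.powerset, ind (bd η = A) * B (symmDiff η g) := by
        refine Finset.sum_bij' (fun η _ => symmDiff η g) (fun η _ => symmDiff η g) ?_ ?_ ?_ ?_ ?_
        · intro η hη
          exact Finset.mem_powerset.mpr (hsub η (Finset.mem_powerset.mp hη))
        · intro η hη
          exact Finset.mem_powerset.mpr (hsub η (Finset.mem_powerset.mp hη))
        · intro η _
          exact symmDiff_symmDiff_cancel_right g η
        · intro η _
          exact symmDiff_symmDiff_cancel_right g η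
        · intro η _
          rw [symmDiff_symmDiff_cancel_right, bd_symmDiff, hg0, add_zero]
      have h7 : ∀ η ∈ ω.powerset, ind (bd η = A) * ind (RgE o i0 i1 m ω) ≤
          ind (bd η = A) * B η + ind (bd η = A) * B (symmDiff η g) := by
        intro η _
        rw [← mul_add]
        by_cases hb : bd η = A
        · refine mul_le_mul_of_nonneg_left ?_ (ind_nonneg _)
          have h8 := ring_det (m := m) (fun u hu => RR_away hi hu) hg0 hgR
            (fun u hu v hv => by rw [hb]; exact hA u hu v hv) hgχ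
          rcases h8 with h8 | h8
          · have e1 : B η = 1 := ind_true h8
            have e2 : 0 ≤ B (symmDiff η g) := ind_nonneg _
            have e3 := ind_le_one (RgE o i0 i1 m ω)
            linarith
          · have e1 : B (symmDiff η g) = 1 := ind_true h8
            have e2 : 0 ≤ B η := ind_nonneg _
            have e3 := ind_le_one (RgE o i0 i1 m ω)
            linarith
        · rw [ind_false hb, zero_mul, zero_mul]
      refine (Finset.sum_le_sum h7).trans (le_of_eq ?_)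
      rw [Finset.sum_add_distrib, ← hre]
      ring
    · have h9 : ∑ η ∈ ω.powerset, ind (bd η = A) * ind (RgE o i0 i1 m ω) = 0 :=
        Finset.sum_eq_zero fun η _ => by rw [ind_false hr, mul_zero]
      rw [h9]
      exact mul_nonneg (by norm_num) (Finset.sum_nonneg fun η _ =>
        mul_nonneg (ind_nonneg _) (ind_nonneg _))
  have h10 : YS bde (fun _ => x) (fun _ => x) E A (fun ω => ind (RgE o i0 i1 m ω)) ≤
      2 * LE x E A B := by
    rw [h3, h5, Finset.mul_sum]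
    refine Finset.sum_le_sum fun ω hω => ?_
    have := mul_le_mul_of_nonneg_left (h6 ω (Finset.mem_powerset.mp hω))
      (wB_nonneg (x := fun _ : Ed d => x) (fun _ _ => hx0.le) (fun _ _ => hx1.le)
        (Finset.mem_powerset.mp hω))
    refine this.trans (le_of_eq ?_)
    ring
  linarith

end Pool.Agent.Rng
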