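import Pool.Agent.Rng.Det
import Pool.Agent.FK1.Fk

/-!
# Ring lemma: the four cubes round the codimension two plane (helper60)

`cq o i0 i1 p q` has coordinates `o + p`, `o + q` in the directions `i0`, `i1` (and `o` in the others);
`Tq o i0 i1 m a b` is the cube with lower corner `cq a b` and side `3 m`.  The four cubes
`T1 = Tq m (-m)`, `T2 = Tq (-2m) m`, `T3 = Tq (-4m) (-2m)`, `T4 = Tq (-m) (-4m)` form a pinwheel round
the central square, `T1` and `T2` share the vertex `cq m m` and so on.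
-/

set_option autoImplicit false

namespace Pool.Agent.Rng

open Finset
open Pool.Agent.SRC
open Pool.Agent.FK1 (FF bdm)

variable {d : ℕ}

/-- the point with coordinates `o + p`, `o + q` in the directions `i0`, `i1` -/
def cq (o : Vx d) (i0 i1 : Fin d) (p q : ℤ) : Vx d :=
  fun k => if k = i0 then o k + p else if k = i1 then o k + q else o k

theorem cq_apply (o : Vx d) (i0 i1 : Fin d) (p q : ℤ) (k : Fin d) :
    cq o i0 i1 p q k = if k = i0 then o k + p else if k = i1 then o k + q else o k := rfl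

/-- cube with lower corner `cq a b` and side `3 m` -/
noncomputable def Tq (o : Vx d) (i0 i1 : Fin d) (m a b : ℤ) : Finset (Vx d) :=
  Finset.Icc (cq o i0 i1 a b) (cq o i0 i1 a b + fun _ => 3 * m)

theorem cq_i0 (o : Vx d) (i0 i1 : Fin d) (p q : ℤ) : cq o i0 i1 p q i0 = o i0 + p := by
  simp [cq]

theorem cq_i1 (o : Vx d) {i0 i1 : Fin d} (h : i0 ≠ i1) (p q : ℤ) :
    cq o i0 i1 p q i1 = o i1 + q := by
  simp [cq, Ne.symm h]

theorem mem_Tq_i0 {o : Vx d} {i0 i1 : Fin d} {m a b : ℤ} {v : Vx d} (h : v ∈ Tq o i0 i1 m a b) :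
    o i0 + a ≤ v i0 ∧ v i0 ≤ o i0 + a + 3 * m := by
  have h1 := Finset.mem_Icc.mp h
  have h2 := h1.1 i0
  have h3 := h1.2 i0
  rw [Pi.add_apply] at h3
  rw [cq_i0] at h2 h3
  exact ⟨h2, h3⟩

theorem mem_Tq_i1 {o : Vx d} {i0 i1 : Fin d} (hi : i0 ≠ i1) {m a b : ℤ} {v : Vx d}
    (h : v ∈ Tq o i0 i1 m a b) : o i1 + b ≤ v i1 ∧ v i1 ≤ o i1 + b + 3 * m := by
  have h1 := Finset.mem_Icc.mp h
  have h2 := h1.1 i1
  have h3 := h1.2 i1
  rw [Pi.add_apply] at h3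
  rw [cq_i1 o hi] at h2 h3
  exact ⟨h2, h3⟩

theorem cq_mem_Tq {o : Vx d} {i0 i1 : Fin d} {m a b p q : ℤ} (hm : 0 ≤ m) (h1 : a ≤ p)
    (h2 : p ≤ a + 3 * m) (h3 : b ≤ q) (h4 : q ≤ b + 3 * m) :
    cq o i0 i1 p q ∈ Tq o i0 i1 m a b := by
  refine Finset.mem_Icc.mpr ⟨fun k => ?_, fun k => ?_⟩
  · show cq o i0 i1 a b k ≤ cq o i0 i1 p q k
    rw [cq_apply, cq_apply]
    split_ifs <;> omega
  · show cq o i0 i1 p q k ≤ cq o i0 i1 a b k + 3 * m
    rw [cq_apply, cq_apply]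
    split_ifs <;> omega

/-- the ring -/
def RR (o : Vx d) (i0 i1 : Fin d) (m : ℤ) : Set (Vx d) :=
  {v | v ∈ Tq o i0 i1 m m (-m) ∨ v ∈ Tq o i0 i1 m (-2 * m) m ∨
    v ∈ Tq o i0 i1 m (-4 * m) (-2 * m) ∨ v ∈ Tq o i0 i1 m (-m) (-4 * m)}

theorem RR_away {o : Vx d} {i0 i1 : Fin d} (hi : i0 ≠ i1) {m : ℤ} {u : Vx d}
    (hu : u ∈ RR o i0 i1 m) : m ≤ |u i0 - o i0| ∨ m ≤ |u i1 - o i1| := by
  rcases hu with h | h | h | h
  · have := mem_Tq_i0 h
    left
    exact le_trans (by omega) (le_abs_self _)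
  · have := mem_Tq_i1 hi h
    right
    exact le_trans (by omega) (le_abs_self _)
  · have := mem_Tq_i0 h
    left
    exact le_trans (by omega) (neg_le_abs _)
  · have := mem_Tq_i1 hi h
    right
    exact le_trans (by omega) (neg_le_abs _)

/-- the ring is open in `ω` -/
def RgE (o : Vx d) (i0 i1 : Fin d) (m : ℤ) (ω : Finset (Ed d)) : Prop :=
  (FF bde (pt (cq o i0 i1 m (-m)) (cq o i0 i1 m m)) (ω ∩ edg (Tq o i0 i1 m m (-m))) ∧
    FF bde (pt (cq o i0 i1 m m) (cq o i0 i1 (-m) m)) (ω ∩ edg (Tq o i0 i1 m (-2 * m) m))) ∧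
  (FF bde (pt (cq o i0 i1 (-m) m) (cq o i0 i1 (-m) (-m)))
      (ω ∩ edg (Tq o i0 i1 m (-4 * m) (-2 * m))) ∧
    FF bde (pt (cq o i0 i1 (-m) (-m)) (cq o i0 i1 m (-m)))
      (ω ∩ edg (Tq o i0 i1 m (-m) (-4 * m))))

theorem chi_zero_of {o : Vx d} {i0 i1 : Fin d} {p : Finset (Ed d)}
    (h : ∀ e ∈ p, e.1 i0 ≠ o i0 ∨ e.1 i1 ≤ o i1) : ∑ e ∈ p, chi o i0 i1 e = 0 := by
  refine Finset.sum_eq_zero fun e he => ?_
  unfold chi
  rw [if_neg]
  rintro ⟨_, h2, h3⟩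
  rcases h e he with h4 | h4
  · exact h4 h2
  · omega

/-- the crossing parity of a path above -/
theorem chi_top {o : Vx d} {i0 i1 : Fin d} {p : Finset (Ed d)}
    (h : ∀ e ∈ p, o i1 < e.1 i1) {a b : Vx d} (hp : bd p = pt a b) (ha : o i0 < a i0)
    (hb : b i0 ≤ o i0) : ∑ e ∈ p, chi o i0 i1 e = 1 := by
  classical
  let f : Vx d → ZMod 2 := fun v => if o i0 < v i0 then 1 else 0
  let V : Finset (Vx d) := insert a (insert b (p.image Prod.fst ∪ p.image tip))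
  have h1 : ∑ e ∈ p, chi o i0 i1 e = ∑ e ∈ p, (f e.1 + f (tip e)) := by
    refine Finset.sum_congr rfl fun e he => ?_
    have hy := h e he
    unfold chi
    simp only [f]
    by_cases he2 : e.2 = i0
    · have ht : tip e i0 = e.1 i0 + 1 := by rw [← he2]; exact tip_same e
      rw [ht]
      rcases lt_trichotomy (e.1 i0) (o i0) with h | h | h
      · rw [if_neg (fun h' => absurd h'.2.1 (by omega)), if_neg (by omega), if_neg (by omega)]
        simp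
      · rw [if_pos ⟨he2, h, hy⟩, if_neg (by omega), if_pos (by omega)]
        simp
      · rw [if_neg (fun h' => absurd h'.2.1 (by omega)), if_pos (by omega), if_pos (by omega)]
        exact (z2 1).symm
    · have ht : tip e i0 = e.1 i0 := tip_ne e (Ne.symm he2)
      rw [ht, z2, if_neg fun h => he2 h.1]
  have h2 := sum_bd p f V (fun e he =>
    ⟨Finset.mem_insert_of_mem (Finset.mem_insert_of_mem
      (Finset.mem_union_left _ (Finset.mem_image_of_mem _ he))),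
      Finset.mem_insert_of_mem (Finset.mem_insert_of_mem
        (Finset.mem_union_right _ (Finset.mem_image_of_mem _ he)))⟩)
  rw [h1, h2, hp]
  have h3 : ∀ c ∈ V, ∑ v ∈ V, f v * (Pi.single c (1 : ZMod 2) : Vx d → ZMod 2) v = f c := by
    intro c hc
    rw [Finset.sum_eq_single c]
    · simp
    · intro w _ hw
      rw [Pi.single_eq_of_ne hw, mul_zero]
    · intro h
      exact absurd hc h
  have h4 : ∀ v, pt a b v = (Pi.single a (1 : ZMod 2) : Vx d → ZMod 2) v +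
      (Pi.single b (1 : ZMod 2) : Vx d → ZMod 2) v := fun v => rfl
  simp only [h4, mul_add, Finset.sum_add_distrib]
  rw [h3 a (Finset.mem_insert_self _ _),
    h3 b (Finset.mem_insert_of_mem (Finset.mem_insert_self _ _))]
  simp only [f]
  rw [if_pos ha, if_neg (by omega), add_zero]

/-- an open ring contains an even graph with odd crossing -/
theorem ring_g {o : Vx d} {i0 i1 : Fin d} (hi : i0 ≠ i1) {m : ℤ} (hm : 1 ≤ m)
    {ω : Finset (Ed d)} (hω : RgE o i0 i1 m ω) :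
    ∃ g, g ⊆ ω ∧ bd g = 0 ∧ (∀ e ∈ g, e.1 ∈ RR o i0 i1 m ∧ tip e ∈ RR o i0 i1 m) ∧
      ∑ e ∈ g, chi o i0 i1 e = 1 := by
  classical
  obtain ⟨⟨⟨p1, s1, b1⟩, ⟨p2, s2, b2⟩⟩, ⟨⟨p3, s3, b3⟩, ⟨p4, s4, b4⟩⟩⟩ := hω
  have b1' : bd p1 = _ := b1
  have b2' : bd p2 = _ := b2
  have b3' : bd p3 = _ := b3
  have b4' : bd p4 = _ := b4
  have m1 : ∀ e ∈ p1, e.1 ∈ Tq o i0 i1 m m (-m) ∧ tip e ∈ Tq o i0 i1 m m (-m) := fun e he =>
    (mem_edg _ _).mp (Finset.mem_inter.mp (s1 he)).2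
  have m2 : ∀ e ∈ p2, e.1 ∈ Tq o i0 i1 m (-2 * m) m ∧ tip e ∈ Tq o i0 i1 m (-2 * m) m :=
    fun e he => (mem_edg _ _).mp (Finset.mem_inter.mp (s2 he)).2
  have m3 : ∀ e ∈ p3, e.1 ∈ Tq o i0 i1 m (-4 * m) (-2 * m) ∧
      tip e ∈ Tq o i0 i1 m (-4 * m) (-2 * m) :=
    fun e he => (mem_edg _ _).mp (Finset.mem_inter.mp (s3 he)).2
  have m4 : ∀ e ∈ p4, e.1 ∈ Tq o i0 i1 m (-m) (-4 * m) ∧ tip e ∈ Tq o i0 i1 m (-m) (-4 * m) :=
    fun e he => (mem_edg _ _).mp (Finset.mem_inter.mp (s4 he)).2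
  have c1 : ∑ e ∈ p1, chi o i0 i1 e = 0 := chi_zero_of fun e he => by
    have := mem_Tq_i0 (m1 e he).1
    left
    omega
  have c2 : ∑ e ∈ p2, chi o i0 i1 e = 1 := by
    refine chi_top (fun e he => ?_) b2' ?_ ?_
    · have := mem_Tq_i1 hi (m2 e he).1
      omega
    · rw [cq_i0]; omega
    · rw [cq_i0]; omega
  have c3 : ∑ e ∈ p3, chi o i0 i1 e = 0 := chi_zero_of fun e he => by
    have := mem_Tq_i0 (m3 e he).1
    left
    omega
  have c4 : ∑ e ∈ p4, chi o i0 i1 e = 0 := chi_zero_of fun e he => by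
    have := mem_Tq_i1 hi (m4 e he).1
    right
    omega
  have t1 : p1 ⊆ ω := s1.trans Finset.inter_subset_left
  have t2 : p2 ⊆ ω := s2.trans Finset.inter_subset_left
  have t3 : p3 ⊆ ω := s3.trans Finset.inter_subset_left
  have t4 : p4 ⊆ ω := s4.trans Finset.inter_subset_left
  have hsd : ∀ a b c : Finset (Ed d), a ⊆ c → b ⊆ c → symmDiff a b ⊆ c := fun a b c ha hb =>
    Finset.union_subset (Finset.sdiff_subset.trans ha) (Finset.sdiff_subset.trans hb)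
  refine ⟨symmDiff (symmDiff p1 p2) (symmDiff p3 p4), hsd _ _ _ (hsd _ _ _ t1 t2) (hsd _ _ _ t3 t4),
    ?_, ?_, ?_⟩
  · rw [bd_symmDiff, bd_symmDiff, bd_symmDiff, b1', b2', b3', b4']
    unfold pt
    funext v
    simp only [Pi.add_apply, Pi.zero_apply]
    have h1 := z2 ((Pi.single (cq o i0 i1 m (-m)) (1 : ZMod 2) : Vx d → ZMod 2) v)
    have h2 := z2 ((Pi.single (cq o i0 i1 m m) (1 : ZMod 2) : Vx d → ZMod 2) v)
    have h3 := z2 ((Pi.single (cq o i0 i1 (-m) m) (1 : ZMod 2) : Vx d → ZMod 2) v)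
    have h4 := z2 ((Pi.single (cq o i0 i1 (-m) (-m)) (1 : ZMod 2) : Vx d → ZMod 2) v)
    linear_combination h1 + h2 + h3 + h4
  · intro e he
    have hmem : e ∈ p1 ∨ e ∈ p2 ∨ e ∈ p3 ∨ e ∈ p4 := by
      rcases Finset.mem_symmDiff.mp he with ⟨h, _⟩ | ⟨h, _⟩
      · rcases Finset.mem_symmDiff.mp h with ⟨h, _⟩ | ⟨h, _⟩
        · exact Or.inl h
        · exact Or.inr (Or.inl h)
      · rcases Finset.mem_symmDiff.mp h with ⟨h, _⟩ | ⟨h, _⟩
        · exact Or.inr (Or.inr (Or.inl h))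
        · exact Or.inr (Or.inr (Or.inr h))
    rcases hmem with h | h | h | h
    · exact ⟨Or.inl (m1 e h).1, Or.inl (m1 e h).2⟩
    · exact ⟨Or.inr (Or.inl (m2 e h).1), Or.inr (Or.inl (m2 e h).2)⟩
    · exact ⟨Or.inr (Or.inr (Or.inl (m3 e h).1)), Or.inr (Or.inr (Or.inl (m3 e h).2))⟩
    · exact ⟨Or.inr (Or.inr (Or.inr (m4 e h).1)), Or.inr (Or.inr (Or.inr (m4 e h).2))⟩
  · rw [sum_symmDiff, sum_symmDiff, sum_symmDiff, c1, c2, c3, c4]
    simp

end Pool.Agent.Rng
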